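import Pool.Agent.Lib.MP_688fd0_co.SQ2.H41.Defs

/-!
The cut between the small and the large prime factors of an integer.
-/

set_option autoImplicit false

namespace Pool.Agent.Lib.MP_688fd0_co.SQ2.H41

open Finset

/-- the part of `n` made of the primes `≤ y` -/
def Sm (n y : ℕ) : ℕ := ∏ p ∈ n.primeFactors.filter (fun p => p ≤ y), p ^ n.factorization p

/-- the part of `n` made of the primes `> y` -/
def Ro (n y : ℕ) : ℕ := ∏ p ∈ n.primeFactors.filter (fun p => ¬ p ≤ y), p ^ n.factorization p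

/-- the number of prime factors in `(V, y]` -/
def cnt (n V y : ℕ) : ℕ := (n.primeFactors.filter (fun p => V < p ∧ p ≤ y)).card

lemma Sm_mul_Ro {n : ℕ} (hn : n ≠ 0) (y : ℕ) : Sm n y * Ro n y = n := by
  unfold Sm Ro
  rw [Finset.prod_filter_mul_prod_filter_not]
  exact Nat.prod_factorization_pow_eq_self hn

lemma Sm_pos (n y : ℕ) : 0 < Sm n y :=
  Finset.prod_pos fun _ hp => pow_pos (Nat.prime_of_mem_primeFactors (mem_filter.1 hp).1).pos _

lemma Ro_pos (n y : ℕ) : 0 < Ro n y :=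
  Finset.prod_pos fun _ hp => pow_pos (Nat.prime_of_mem_primeFactors (mem_filter.1 hp).1).pos _

lemma Sm_succ_of_not {n y : ℕ} (h : y + 1 ∉ n.primeFactors) : Sm n (y + 1) = Sm n y := by
  unfold Sm
  refine Finset.prod_congr ?_ fun _ _ => rfl
  ext p
  rw [mem_filter, mem_filter]
  constructor
  · rintro ⟨h1, h2⟩
    refine ⟨h1, ?_⟩
    rcases Nat.lt_or_ge y p with h3 | h3
    · have : p = y + 1 := by omega
      subst this
      exact absurd h1 h
    · exact h3
  · rintro ⟨h1, h2⟩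
    exact ⟨h1, by omega⟩

lemma Sm_succ_of_mem {n y : ℕ} (h : y + 1 ∈ n.primeFactors) (h2 : ¬ (y + 1) ^ 2 ∣ n) :
    Sm n (y + 1) = Sm n y * (y + 1) := by
  have hp := Nat.prime_of_mem_primeFactors h
  have hn : n ≠ 0 := (Nat.mem_primeFactors.1 h).2.2
  have hf : n.factorization (y + 1) = 1 := by
    have h3 : 1 ≤ n.factorization (y + 1) :=
      (hp.dvd_iff_one_le_factorization hn).1 (Nat.dvd_of_mem_primeFactors h)
    have h4 : ¬ 2 ≤ n.factorization (y + 1) := fun h5 => h2 ((hp.pow_dvd_iff_le_factorization hn).2 h5)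
    omega
  unfold Sm
  have he : n.primeFactors.filter (fun p => p ≤ y + 1) =
      insert (y + 1) (n.primeFactors.filter (fun p => p ≤ y)) := by
    ext p
    rw [mem_insert, mem_filter, mem_filter]
    constructor
    · rintro ⟨h3, h4⟩
      rcases Nat.lt_or_ge y p with h5 | h5
      · left; omega
      · right; exact ⟨h3, h5⟩
    · rintro (rfl | ⟨h3, h4⟩)
      · exact ⟨h, le_rfl⟩
      · exact ⟨h3, by omega⟩
  rw [he, Finset.prod_insert, hf, pow_one, mul_comm]
  rw [mem_filter]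
  rintro ⟨_, h6⟩
  omega

lemma cnt_succ_of_mem {n V y : ℕ} (h : y + 1 ∈ n.primeFactors) (hV : V ≤ y) :
    cnt n V (y + 1) = cnt n V y + 1 := by
  unfold cnt
  have he : n.primeFactors.filter (fun p => V < p ∧ p ≤ y + 1) =
      insert (y + 1) (n.primeFactors.filter (fun p => V < p ∧ p ≤ y)) := by
    ext p
    rw [mem_insert, mem_filter, mem_filter]
    constructor
    · rintro ⟨h3, h4, h5⟩
      rcases Nat.lt_or_ge y p with h6 | h6
      · left; omega
      · right; exact ⟨h3, h4, h6⟩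
    · rintro (rfl | ⟨h3, h4, h5⟩)
      · exact ⟨h, by omega, le_rfl⟩
      · exact ⟨h3, h4, by omega⟩
  rw [he, Finset.card_insert_of_notMem]
  rw [mem_filter]
  rintro ⟨_, _, h6⟩
  omega

lemma cnt_mono (n V : ℕ) {y z : ℕ} (h : y ≤ z) : cnt n V y ≤ cnt n V z := by
  unfold cnt
  refine Finset.card_le_card ?_
  intro p
  rw [mem_filter, mem_filter]
  rintro ⟨h1, h2, h3⟩
  exact ⟨h1, h2, h3.trans h⟩

/-- The cut exists if there are few prime factors in `(V, Z]`. -/
theorem exists_cut {n V Z B : ℕ} (hVZ : V ≤ Z)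
    (hsq : ∀ p ∈ n.primeFactors, V < p → ¬ p ^ 2 ∣ n) (hB : 4 * Sm n V ≤ B)
    (hZ : B ^ 2 ^ cnt n V Z ≤ Z) :
    ∃ y, V ≤ y ∧ y ≤ Z ∧ (∀ p ∈ n.primeFactors, y < p → 4 * Sm n y < p) ∧
      4 * Sm n y ≤ B ^ 2 ^ cnt n V Z := by
  classical
  have hB1 : 1 ≤ B := by
    have := Sm_pos n V
    omega
  have claim : ∀ y, V ≤ y → (∀ y', V ≤ y' → y' < y →
      ¬ ∀ p ∈ n.primeFactors, y' < p → 4 * Sm n y' < p) →
      4 * Sm n y ≤ B ^ 2 ^ cnt n V y := by
    intro y hy
    induction y, hy using Nat.le_induction with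
    | base =>
      intro _
      exact hB.trans (Nat.le_self_pow (by positivity) B)
    | succ y hy ih =>
      intro hbad
      have ih' := ih (fun y' h1 h2 => hbad y' h1 (by omega))
      by_cases hmem : y + 1 ∈ n.primeFactors
      · have hb := hbad y hy (by omega)
        push Not at hb
        obtain ⟨p, hp, hyp, hps⟩ := hb
        have h1 : y + 1 ≤ 4 * Sm n y := by omega
        rw [Sm_succ_of_mem hmem (hsq _ hmem (by omega)), cnt_succ_of_mem hmem hy]
        calc 4 * (Sm n y * (y + 1)) = (4 * Sm n y) * (y + 1) := by ring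
          _ ≤ (4 * Sm n y) * (4 * Sm n y) := Nat.mul_le_mul_left _ h1
          _ ≤ B ^ 2 ^ cnt n V y * B ^ 2 ^ cnt n V y := Nat.mul_le_mul ih' ih'
          _ = B ^ 2 ^ (cnt n V y + 1) := by rw [← pow_add, pow_succ]; ring_nf
      · rw [Sm_succ_of_not hmem]
        refine ih'.trans (Nat.pow_le_pow_right hB1 (Nat.pow_le_pow_right (by norm_num) ?_))
        exact cnt_mono n V (by omega)
  by_cases hex : ∃ y, V ≤ y ∧ ∀ p ∈ n.primeFactors, y < p → 4 * Sm n y < p
  · -- the least one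
    set y := Nat.find hex with hydef
    obtain ⟨hy1, hy2⟩ := Nat.find_spec hex
    have hmin : ∀ y', V ≤ y' → y' < y → ¬ ∀ p ∈ n.primeFactors, y' < p → 4 * Sm n y' < p :=
      fun y' h1 h2 h3 => Nat.find_min hex h2 ⟨h1, h3⟩
    have hyZ : y ≤ Z := by
      by_contra hcon
      push Not at hcon
      have h1 := claim Z hVZ (fun y' h1 h2 => hmin y' h1 (by omega))
      have h2 := hmin Z hVZ hcon
      push Not at h2
      obtain ⟨p, hp, hyp, hps⟩ := h2
      omega
    refine ⟨y, hy1, hyZ, hy2, (claim y hy1 hmin).trans ?_⟩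
    exact Nat.pow_le_pow_right hB1 (Nat.pow_le_pow_right (by norm_num) (cnt_mono n V hyZ))
  · exfalso
    push Not at hex
    have h1 := claim Z hVZ (fun y' h1 h2 h3 => by
      obtain ⟨p, hp, hyp, hps⟩ := hex y' h1
      have := h3 p hp hyp
      omega)
    obtain ⟨p, hp, hyp, hps⟩ := hex Z hVZ
    omega

/-- the primes of `Ro n y` -/
lemma mem_primeFactors_Ro {n y p : ℕ} (hn : n ≠ 0) (hp : p ∈ (Ro n y).primeFactors) :
    p ∈ n.primeFactors ∧ y < p := by
  have hpp := Nat.prime_of_mem_primeFactors hp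
  have hd : Ro n y ∣ n := ⟨Sm n y, by rw [mul_comm]; exact (Sm_mul_Ro hn y).symm⟩
  refine ⟨Nat.primeFactors_mono hd hn hp, ?_⟩
  have h1 := Nat.dvd_of_mem_primeFactors hp
  unfold Ro at h1
  obtain ⟨q, hq, hqd⟩ := (Prime.dvd_finsetProd_iff hpp.prime _).1 h1
  rw [mem_filter] at hq
  have h2 := (Nat.prime_dvd_prime_iff_eq hpp (Nat.prime_of_mem_primeFactors hq.1)).1
    (hpp.dvd_of_dvd_pow hqd)
  subst h2
  omega

lemma mem_primeFactors_Sm {n y p : ℕ} (hp : p ∈ (Sm n y).primeFactors) :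
    p ∈ n.primeFactors ∧ p ≤ y := by
  have hpp := Nat.prime_of_mem_primeFactors hp
  have h1 := Nat.dvd_of_mem_primeFactors hp
  unfold Sm at h1
  obtain ⟨q, hq, hqd⟩ := (Prime.dvd_finsetProd_iff hpp.prime _).1 h1
  rw [mem_filter] at hq
  have h2 := (Nat.prime_dvd_prime_iff_eq hpp (Nat.prime_of_mem_primeFactors hq.1)).1
    (hpp.dvd_of_dvd_pow hqd)
  subst h2
  exact hq

lemma coprime_Sm_Ro {n : ℕ} (hn : n ≠ 0) (y : ℕ) : (Sm n y).Coprime (Ro n y) := by
  refine Nat.coprime_of_dvd ?_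
  intro p hp h1 h2
  have h3 := mem_primeFactors_Sm (Nat.mem_primeFactors.2 ⟨hp, h1, (Sm_pos n y).ne'⟩)
  have h4 := mem_primeFactors_Ro hn (Nat.mem_primeFactors.2 ⟨hp, h2, (Ro_pos n y).ne'⟩)
  omega

lemma squarefree_Ro {n y : ℕ} (hn : n ≠ 0) (hsq : ∀ p ∈ n.primeFactors, y < p → ¬ p ^ 2 ∣ n) :
    Squarefree (Ro n y) := by
  rw [Nat.squarefree_iff_prime_squarefree]
  intro p hp hd
  have hdn : Ro n y ∣ n := ⟨Sm n y, by rw [mul_comm]; exact (Sm_mul_Ro hn y).symm⟩
  have hpm : p ∈ (Ro n y).primeFactors :=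
    Nat.mem_primeFactors.2 ⟨hp, (Dvd.intro _ rfl).trans hd, (Ro_pos n y).ne'⟩
  obtain ⟨h1, h2⟩ := mem_primeFactors_Ro hn hpm
  exact hsq p h1 h2 (by rw [sq]; exact hd.trans hdn)

end Pool.Agent.Lib.MP_688fd0_co.SQ2.H41
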