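import Pool.Agent.Lib.MP_688fd0_co.OSF.H38.Ord2
import Pool.Agent.Lib.MP_688fd0_co.DEN.H30.Num
import Pool.Agent.Lib.MP_688fd0_co.SQ2.H41.CutA

/-!
Counting lemmas for the cut.
-/

set_option autoImplicit false

namespace Pool.Agent.Lib.MP_688fd0_co.SQ2.H41

open Finset
open Pool.Agent.Lib.MP_ba0fa5_ag.AA (primesIn MertapStmt RecgStmt BtsumStmt)
open Pool.Agent.Lib.MP_688fd0_co.OSF.H38 (ell harm_le card_mult mem_primesIn upp mert turan)

open Classical in
/-- integers divisible by some `q (k q + 1)`, `q > V`, `1 ≤ k ≤ D` -/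
lemma card_qk (x V D : ℕ) (hV : 0 < V) :
    (((Ioc 0 x).filter fun n => ∃ q, V < q ∧ ∃ k ∈ Ioc 0 D, q * (k * q + 1) ∣ n).card : ℝ) ≤
      x * ell D / V := by
  classical
  have hsub : ((Ioc 0 x).filter fun n => ∃ q, V < q ∧ ∃ k ∈ Ioc 0 D, q * (k * q + 1) ∣ n) ⊆
      (Ioc V (max V x)).biUnion fun q => (Ioc 0 D).biUnion fun k =>
        (Ioc 0 x).filter fun n => q * (k * q + 1) ∣ n := by
    intro n hn
    rw [mem_filter] at hn
    obtain ⟨hn1, q, hq, k, hk, hd⟩ := hn
    have hn1' := mem_Ioc.1 hn1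
    have hqx : q ≤ x := (Nat.le_of_dvd hn1'.1 ((Dvd.intro _ rfl).trans hd)).trans hn1'.2
    rw [mem_biUnion]
    refine ⟨q, mem_Ioc.2 ⟨hq, hqx.trans (le_max_right _ _)⟩, ?_⟩
    rw [mem_biUnion]
    exact ⟨k, hk, mem_filter.2 ⟨hn1, hd⟩⟩
  have hVm : V ≤ max V x := le_max_left _ _
  calc (((Ioc 0 x).filter fun n => ∃ q, V < q ∧ ∃ k ∈ Ioc 0 D, q * (k * q + 1) ∣ n).card : ℝ)
      ≤ ∑ q ∈ Ioc V (max V x), ∑ k ∈ Ioc 0 D,
        (((Ioc 0 x).filter fun n => q * (k * q + 1) ∣ n).card : ℝ) := by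
        have h := (Finset.card_le_card hsub).trans (Finset.card_biUnion_le.trans
          (Finset.sum_le_sum fun q _ => Finset.card_biUnion_le))
        exact_mod_cast h
    _ ≤ ∑ q ∈ Ioc V (max V x), ∑ k ∈ Ioc 0 D, (x : ℝ) * ((1 / k) * ((q : ℝ) ^ 2)⁻¹) := by
        refine Finset.sum_le_sum fun q hq => Finset.sum_le_sum fun k hk => ?_
        refine (card_mult _ _).trans ?_
        rw [mem_Ioc] at hq hk
        have hq0 : (0 : ℝ) < q := by exact_mod_cast (by omega : 0 < q)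
        have hk0 : (0 : ℝ) < k := by exact_mod_cast hk.1
        rw [div_eq_mul_inv]
        refine mul_le_mul_of_nonneg_left ?_ (Nat.cast_nonneg x)
        rw [one_div, ← mul_inv]
        refine inv_anti₀ (by positivity) ?_
        push_cast
        nlinarith
    _ = x * ((∑ k ∈ Ioc 0 D, (1 : ℝ) / k) * ∑ q ∈ Ioc V (max V x), ((q : ℝ) ^ 2)⁻¹) := by
        rw [Finset.sum_mul_sum, Finset.sum_comm, Finset.mul_sum]
        refine Finset.sum_congr rfl fun k _ => ?_
        rw [Finset.mul_sum]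
    _ ≤ x * (ell D * (V : ℝ)⁻¹) := by
        refine mul_le_mul_of_nonneg_left ?_ (Nat.cast_nonneg x)
        refine mul_le_mul (harm_le D) ?_ (Finset.sum_nonneg fun q _ => by positivity)
          (Nat.cast_nonneg _)
        refine (sum_Ioc_inv_sq_le_sub (α := ℝ) (by omega) hVm).trans ?_
        have : (0 : ℝ) ≤ ((max V x : ℕ) : ℝ)⁻¹ := by positivity
        linarith
    _ = x * ell D / V := by rw [div_eq_mul_inv]; ring

/-- pairs of primes `q ∣ p - 1` with `p > q ^ 2` -/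
lemma card_bt (hB : BtsumStmt) : ∃ C : ℝ, 0 < C ∧ ∀ x V J : ℕ, 2 ≤ V → x ≤ 4 ^ 2 ^ J →
    (((Ioc 0 x).filter fun n => ∃ q ∈ n.primeFactors, ∃ p ∈ n.primeFactors,
      V < q ∧ q ^ 2 < p ∧ q ∣ p - 1).card : ℝ) ≤ x * (C * J) / V := by
  classical
  obtain ⟨C, hC0, hC⟩ := upp hB
  refine ⟨2 * C, by positivity, fun x V J hV hx => ?_⟩
  set U : ℕ → Finset ℕ := fun q =>
    (primesIn (q ^ 2) ((q ^ 2) ^ 2 ^ J)).filter (fun p => p ≡ 1 [MOD q]) with hU
  have hsub : ((Ioc 0 x).filter fun n => ∃ q ∈ n.primeFactors, ∃ p ∈ n.primeFactors,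
      V < q ∧ q ^ 2 < p ∧ q ∣ p - 1) ⊆
      ((Ioc V (max V x)).filter Nat.Prime).biUnion fun q => (U q).biUnion fun p =>
        (Ioc 0 x).filter fun n => q * p ∣ n := by
    intro n hn
    rw [mem_filter] at hn
    obtain ⟨hn1, q, hq, p, hp, hVq, hqp2, hd⟩ := hn
    have hn1' := mem_Ioc.1 hn1
    have hqp := Nat.prime_of_mem_primeFactors hq
    have hpp := Nat.prime_of_mem_primeFactors hp
    have hqn := Nat.dvd_of_mem_primeFactors hq
    have hpn := Nat.dvd_of_mem_primeFactors hp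
    have hqx : q ≤ x := (Nat.le_of_dvd hn1'.1 hqn).trans hn1'.2
    have hpx : p ≤ x := (Nat.le_of_dvd hn1'.1 hpn).trans hn1'.2
    have hne : q ≠ p := by
      intro h
      subst h
      have := hqp.two_le
      nlinarith
    have hcop : Nat.Coprime q p := (Nat.coprime_primes hqp hpp).mpr hne
    have hpU : p ∈ U q := by
      rw [hU]
      dsimp only
      rw [mem_filter, mem_primesIn]
      refine ⟨⟨⟨hqp2, ?_⟩, hpp⟩, ?_⟩
      · refine hpx.trans (hx.trans (Nat.pow_le_pow_left ?_ _))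
        have := hqp.two_le
        nlinarith
      · exact ((Nat.modEq_iff_dvd' hpp.one_lt.le).2 hd).symm
    rw [mem_biUnion]
    refine ⟨q, mem_filter.2 ⟨mem_Ioc.2 ⟨hVq, hqx.trans (le_max_right _ _)⟩, hqp⟩, ?_⟩
    rw [mem_biUnion]
    exact ⟨p, hpU, mem_filter.2 ⟨hn1, hcop.mul_dvd_of_dvd_of_dvd hqn hpn⟩⟩
  have hVm : V ≤ max V x := le_max_left _ _
  calc (((Ioc 0 x).filter fun n => ∃ q ∈ n.primeFactors, ∃ p ∈ n.primeFactors,
      V < q ∧ q ^ 2 < p ∧ q ∣ p - 1).card : ℝ)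
      ≤ ∑ q ∈ (Ioc V (max V x)).filter Nat.Prime, ∑ p ∈ U q,
        (((Ioc 0 x).filter fun n => q * p ∣ n).card : ℝ) := by
        have h := (Finset.card_le_card hsub).trans (Finset.card_biUnion_le.trans
          (Finset.sum_le_sum fun q _ => Finset.card_biUnion_le))
        exact_mod_cast h
    _ ≤ ∑ q ∈ (Ioc V (max V x)).filter Nat.Prime, (x : ℝ) * (2 * C * J) * ((q : ℝ) ^ 2)⁻¹ := by
        refine Finset.sum_le_sum fun q hq => ?_
        rw [mem_filter, mem_Ioc] at hq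
        have hq3 : 3 ≤ q := by omega
        have hq0 : (0 : ℝ) < q := by exact_mod_cast (by omega : 0 < q)
        have h1 : ∑ p ∈ U q, (((Ioc 0 x).filter fun n => q * p ∣ n).card : ℝ) ≤
            ∑ p ∈ U q, (x : ℝ) / q * (1 / p) := by
          refine Finset.sum_le_sum fun p _ => ?_
          refine (card_mult _ _).trans_eq ?_
          push_cast
          rw [div_mul_div_comm, mul_one]
        refine h1.trans ?_
        rw [← Finset.mul_sum]
        have h2 := hC q 1 (q ^ 2) J (by omega) (by nlinarith) le_rfl (Nat.coprime_one_left q)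
        have h3 : (q.totient : ℝ) = q - 1 := by
          rw [Nat.totient_prime hq.2]
          push_cast [Nat.cast_sub (by omega : 1 ≤ q)]
          ring
        rw [h3] at h2
        have hq3r : (3 : ℝ) ≤ q := by exact_mod_cast hq3
        have hJ0 : (0 : ℝ) ≤ J := Nat.cast_nonneg J
        have h4 : C * J / ((q : ℝ) - 1) ≤ 2 * C * J / q := by
          rw [div_le_div_iff₀ (by linarith) hq0]
          have h5 : 0 ≤ C * J := by positivity
          nlinarith
        calc (x : ℝ) / q * ∑ p ∈ U q, (1 : ℝ) / p ≤ (x : ℝ) / q * (2 * C * J / q) :=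
              mul_le_mul_of_nonneg_left (h2.trans h4) (by positivity)
          _ = (x : ℝ) * (2 * C * J) * ((q : ℝ) ^ 2)⁻¹ := by
              field_simp
    _ ≤ ∑ q ∈ Ioc V (max V x), (x : ℝ) * (2 * C * J) * ((q : ℝ) ^ 2)⁻¹ :=
        Finset.sum_le_sum_of_subset_of_nonneg (Finset.filter_subset _ _)
          fun q _ _ => by positivity
    _ = (x : ℝ) * (2 * C * J) * ∑ q ∈ Ioc V (max V x), ((q : ℝ) ^ 2)⁻¹ := by
        rw [Finset.mul_sum]
    _ ≤ (x : ℝ) * (2 * C * J) * (V : ℝ)⁻¹ := by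
        refine mul_le_mul_of_nonneg_left ?_ (by positivity)
        refine (sum_Ioc_inv_sq_le_sub (α := ℝ) (by omega) hVm).trans ?_
        have : (0 : ℝ) ≤ ((max V x : ℕ) : ℝ)⁻¹ := by positivity
        linarith
    _ = x * (2 * C * J) / V := by rw [div_eq_mul_inv]

/-- the logarithm of the smooth part -/
lemma log_Sm (n y : ℕ) :
    Real.log (Sm n y : ℝ) = ∑ p ∈ n.primeFactors.filter (fun p => p ≤ y),
      (n.factorization p : ℝ) * Real.log p := by
  unfold Sm
  push_cast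
  rw [Real.log_prod]
  · refine Finset.sum_congr rfl fun p _ => ?_
    rw [Real.log_pow]
  · intro p hp
    have := (Nat.prime_of_mem_primeFactors (mem_filter.1 hp).1).pos
    positivity

/-- Markov for the smooth part, prime factors counted with multiplicity -/
lemma card_smooth_ge (x y : ℕ) (R : ℝ) (hR : 0 < R) :
    (((Ioc 0 x).filter fun n => R ≤ Real.log (Sm n y : ℝ)).card : ℝ) ≤
      2 * x * (∑ q ∈ primesIn 0 y, Real.log q / q) / R := by
  classical
  rw [le_div_iff₀ hR]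
  have h1 : ((((Ioc 0 x).filter fun n => R ≤ Real.log (Sm n y : ℝ)).card : ℝ)) * R ≤
      ∑ n ∈ Ioc 0 x, Real.log (Sm n y : ℝ) := by
    rw [← nsmul_eq_mul]
    refine (Finset.card_nsmul_le_sum _ (fun n => Real.log (Sm n y : ℝ)) _ ?_).trans ?_
    · intro n hn
      rw [mem_filter] at hn
      exact hn.2
    · exact Finset.sum_le_sum_of_subset_of_nonneg (Finset.filter_subset _ _)
        fun n _ _ => Real.log_natCast_nonneg _
  refine h1.trans ?_
  have h2 : ∀ n ∈ Ioc 0 x, Real.log (Sm n y : ℝ) ≤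
      ∑ p ∈ primesIn 0 y, (n.factorization p : ℝ) * Real.log p := by
    intro n _
    rw [log_Sm]
    refine Finset.sum_le_sum_of_subset_of_nonneg ?_ fun p _ _ => ?_
    · intro p hp
      rw [mem_filter] at hp
      have := Nat.prime_of_mem_primeFactors hp.1
      exact mem_primesIn.2 ⟨⟨this.pos, hp.2⟩, this⟩
    · exact mul_nonneg (Nat.cast_nonneg _) (Real.log_natCast_nonneg p)
  refine (Finset.sum_le_sum h2).trans ?_
  rw [Finset.sum_comm, mul_assoc, Finset.mul_sum, Finset.mul_sum]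
  refine Finset.sum_le_sum fun p hp => ?_
  rw [← Finset.sum_mul]
  have hpp := (mem_primesIn.1 hp).2
  have h3 := Pool.Agent.Lib.MP_688fd0_co.DEN.factorial_fac_le hpp x
  have h4 := Pool.Agent.Lib.MP_688fd0_co.DEN.sum_factorization p x
  have h5 : (∑ n ∈ Ioc 0 x, (n.factorization p : ℝ)) = ((x.factorial.factorization p : ℕ) : ℝ) := by
    rw [← h4]; push_cast; rfl
  rw [h5]
  refine h3.trans_eq ?_
  ring

/-- few integers have many prime factors in `S` -/
lemma card_many (x : ℕ) (S : Finset ℕ) (hS : ∀ p ∈ S, p.Prime) (hc : S.card ≤ x) (μ a : ℝ)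
    (hμ : ∑ p ∈ S, (1 : ℝ) / p ≤ μ) (ha : 0 < a) :
    (((Ioc 0 x).filter fun n => μ + a ≤ ((S.filter (fun p => p ∣ n)).card : ℝ)).card : ℝ) ≤
      3 * x * μ / a ^ 2 := by
  classical
  rw [le_div_iff₀ (by positivity)]
  set m : ℝ := ∑ p ∈ S, (1 : ℝ) / p with hm
  refine le_trans ?_ ((turan x S hS hc).trans (mul_le_mul_of_nonneg_left hμ (by positivity)))
  rw [← nsmul_eq_mul]
  refine (Finset.card_nsmul_le_sum _
    (fun n => (((S.filter (fun p => p ∣ n)).card : ℝ) - m) ^ 2) _ ?_).trans ?_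
  · intro n hn
    rw [mem_filter] at hn
    have h2 : a ≤ ((S.filter (fun p => p ∣ n)).card : ℝ) - m := by
      have := hn.2
      linarith
    exact pow_le_pow_left₀ ha.le h2 2
  · exact Finset.sum_le_sum_of_subset_of_nonneg (Finset.filter_subset _ _)
      fun _ _ _ => by positivity

end Pool.Agent.Lib.MP_688fd0_co.SQ2.H41
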