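import Pool.Agent.Lib.MP_688fd0_co.SQ2.H41.CutB
import Pool.Agent.Lib.MP_688fd0_co.SQ2.H41.DenA
import Pool.Agent.Lib.MP_688fd0_co.OSF.H38.Orders
import Pool.Agent.Lib.MP_688fd0_co.OSF.H23.OrdO

/-!
Almost all odd integers are nice.
-/

set_option autoImplicit false

namespace Pool.Agent.Lib.MP_688fd0_co.SQ2.H41

open Finset Filter
open Pool.Agent.Lib.MP_ba0fa5_ag.AA (primesIn MertapStmt RecgStmt BtsumStmt)
open Pool.Agent.Lib.MP_688fd0_co.OSF.H38 (ell two_le_ell harm_le card_mult mem_primesIn upp mert turan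
  bad1 bad2 ev_pow ev_ell)

/-- the number of prime factors in a long range -/
lemma sum_le (hM : MertapStmt) (hR : RecgStmt) : ∃ V₀ : ℕ, ∀ V J : ℕ, V₀ ≤ V → 1 ≤ J →
    ∑ p ∈ primesIn V (V ^ 2 ^ J), (1 : ℝ) / p ≤ 7 / 10 * J := by
  obtain ⟨C, hC⟩ := hM 1 le_rfl
  have h0 := hC 0 1 (by norm_num) le_rfl
  have hC0 : 0 ≤ C := (abs_nonneg _).trans h0
  have h := hR (fun _ => 1) 1 C (fun _ => by norm_num) (by norm_num) hC0 (by
    intro y hy
    have h1 := hC 0 y (by norm_num) hy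
    have e : (Icc 1 y).filter (fun l => l.Prime ∧ l ≡ 0 [MOD 1]) = primesIn 0 y := by
      ext l
      rw [mem_filter, mem_Icc, mem_primesIn]
      constructor
      · rintro ⟨h2, h3, _⟩
        exact ⟨⟨by omega, h2.2⟩, h3⟩
      · rintro ⟨h2, h3⟩
        exact ⟨⟨by omega, h2.2⟩, h3, Nat.modEq_one⟩
    rw [e] at h1
    simp only [Nat.totient_one, Nat.cast_one, div_one] at h1
    simpa using h1)
  set K : ℝ := 4 * C + 4 * 1 with hK
  have hK0 : 0 < K := by positivity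
  obtain ⟨V₀, hV₀⟩ := exists_nat_ge (Real.exp (K * 200))
  refine ⟨max 3 V₀, fun V J hV hJ => ?_⟩
  have hV3 : 3 ≤ V := (le_max_left _ _).trans hV
  have hVV : V₀ ≤ V := (le_max_right _ _).trans hV
  have hVr : (1 : ℝ) < V := by exact_mod_cast (by omega : 1 < V)
  have hlogV : 0 < Real.log V := Real.log_pos hVr
  have hlog : K * 200 ≤ Real.log V := by
    rw [Real.le_log_iff_exp_le (by linarith)]
    exact hV₀.trans (by exact_mod_cast hVV)
  have hle : V ≤ V ^ 2 ^ J := Nat.le_self_pow (by positivity) V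
  have h1 := h V (V ^ 2 ^ J) (by omega) hle
  have e1 : Real.log ((V ^ 2 ^ J : ℕ) : ℝ) / Real.log V = 2 ^ J := by
    push_cast
    rw [Real.log_pow]
    push_cast
    field_simp
  rw [e1, Real.log_pow] at h1
  have h2 := (abs_le.mp h1).2
  have h3 : K / Real.log V ≤ 1 / 200 := by
    rw [div_le_div_iff₀ hlogV (by positivity)]
    linarith
  have h4 : Real.log 2 < 0.6931471808 := Real.log_two_lt_d9
  have hJ1 : (1 : ℝ) ≤ J := by exact_mod_cast hJ
  have h5 : ∑ l ∈ primesIn V (V ^ 2 ^ J), (1 : ℝ) / l ≤ 1 * (J * Real.log 2) + K / Real.log V := by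
    linarith
  refine h5.trans ?_
  nlinarith

lemma lt_two_pow_ell (y : ℕ) : y < 2 ^ ell y := by
  unfold ell
  have := Nat.lt_pow_succ_log_self (b := 2) (by norm_num) y
  refine this.trans_le (Nat.pow_le_pow_right (by norm_num) (by omega))

lemma ell_le_of_lt {y a : ℕ} (ha : 1 ≤ a) (h : y < 2 ^ a) : ell y ≤ a + 1 := by
  unfold ell
  rcases Nat.eq_zero_or_pos y with h0 | h0
  · subst h0
    simp
    omega
  · have := Nat.log_lt_of_lt_pow h0.ne' h
    omega

private lemma aux_six {δ t u : ℝ} (hδ : 0 < δ) (h : t ≤ δ * u) : t ≤ δ * (u + 1) := by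
  rw [mul_add]; linarith

private lemma aux_sq {L : ℕ} (h : 6 ≤ L) : 36 ≤ L ^ 2 :=
  (by norm_num : 36 ≤ 6 ^ 2).trans (Nat.pow_le_pow_left h 2)

private lemma aux_sq3 {L : ℕ} (h : 6 ≤ L) : 3 * L ≤ L ^ 2 := by
  rw [sq]; exact Nat.mul_le_mul_right _ (by omega)

private lemma aux_c7 {e L T : ℕ} (hL : 6 ≤ L) (h : e ≤ L * T + 1 + 1) : e ≤ (T + 1) * L := by
  have : (T + 1) * L = L * T + L := by ring
  omega

private lemma aux_pow {a L : ℕ} (h1 : 1 ≤ a) (hL : 6 ≤ L) : a + 2 ≤ a * L :=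
  (by omega : a + 2 ≤ a * 3).trans (Nat.mul_le_mul_left _ (by omega))

private lemma aux_pow2 {a L : ℕ} (h1 : L ≤ a) (hL : 6 ≤ L) : a + 3 * L ≤ a * L :=
  (by omega : a + 3 * L ≤ a * 4).trans (Nat.mul_le_mul_left _ (by omega))

open Classical in
theorem niceS_of (hM : MertapStmt) (hR : RecgStmt) (hB : BtsumStmt) : NiceS := by
  classical
  intro c ε hε
  obtain ⟨δ, hδ⟩ : ∃ X : ℝ, X = ε / 12 := ⟨_, rfl⟩
  have hδ0 : 0 < δ := by rw [hδ]; positivity
  obtain ⟨V₀, hV₀⟩ := sum_le hM hR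
  obtain ⟨C, hC0, hC⟩ := card_bt hB
  obtain ⟨C', hC'0, hC'⟩ := mert hM
  obtain ⟨J', ℓ₁, hP⟩ := hasP_of hM hR hB δ hδ0
  -- constants
  obtain ⟨T₀, hT₀⟩ := exists_nat_ge (6 / δ)
  obtain ⟨T, hT⟩ : ∃ X : ℕ, X = T₀ + 1 := ⟨_, rfl⟩
  obtain ⟨J₀, hJ₀⟩ := exists_nat_ge (42 / δ)
  obtain ⟨J₁, hJ₁⟩ : ∃ X : ℕ, X = J₀ + T + 1 := ⟨_, rfl⟩
  obtain ⟨k₀, hk₀⟩ := exists_nat_ge (4 / δ)
  obtain ⟨A, hA⟩ : ∃ X : ℕ, X = 2 * 2 ^ (5 * J₁) := ⟨_, rfl⟩
  obtain ⟨B, hBdef⟩ : ∃ X : ℕ, X = (A + 1) * c + A + 2 := ⟨_, rfl⟩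
  obtain ⟨N, hN⟩ : ∃ X : ℕ, X = B + J' + A + 1 := ⟨_, rfl⟩
  obtain ⟨L₀, hL₀⟩ := exists_nat_ge (max (max ((3 + C + (T + 1)) / δ) (Real.exp C')) ((k₀ + 1 : ℕ) + 5 + V₀))
  obtain ⟨ℓ₂, hℓ₂⟩ := ev_ell L₀
  obtain ⟨ℓ₃, hℓ₃⟩ := ev_pow N
  obtain ⟨x₀, hx₀⟩ := ev_ell (max (max ℓ₁ ℓ₂) (max ℓ₃ 3))
  refine ⟨max x₀ 2, fun x hx => ?_⟩
  have hxx : x₀ ≤ x := (le_max_left _ _).trans hx
  have hx2 : 2 ≤ x := (le_max_right _ _).trans hx
  have hx0 : (0 : ℝ) < x := by exact_mod_cast (by omega : 0 < x)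
  obtain ⟨ℓ, hℓ⟩ : ∃ X : ℕ, X = ell x := ⟨_, rfl⟩
  have hall := hx₀ x hxx
  rw [← hℓ] at hall
  have g1 : ℓ₁ ≤ ℓ := ((le_max_left _ _).trans (le_max_left _ _)).trans hall
  have g2 : ℓ₂ ≤ ℓ := ((le_max_right _ _).trans (le_max_left _ _)).trans hall
  have g3 : ℓ₃ ≤ ℓ := ((le_max_left _ _).trans (le_max_right _ _)).trans hall
  have g4 : 3 ≤ ℓ := ((le_max_right _ _).trans (le_max_right _ _)).trans hall
  obtain ⟨L, hL⟩ : ∃ X : ℕ, X = ell ℓ := ⟨_, rfl⟩
  have hLL : L₀ ≤ L := by rw [hL]; exact hℓ₂ ℓ g2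
  have hLN : L ^ N ≤ ℓ := by rw [hL]; exact hℓ₃ ℓ g3
  have hLr : max (max ((3 + C + (T + 1)) / δ) (Real.exp C')) ((k₀ + 1 : ℕ) + 5 + V₀) ≤ (L : ℝ) :=
    hL₀.trans (by exact_mod_cast hLL)
  have e1 : (3 + C + (T + 1)) / δ ≤ (L : ℝ) := ((le_max_left _ _).trans (le_max_left _ _)).trans hLr
  have e2 : Real.exp C' ≤ (L : ℝ) := ((le_max_right _ _).trans (le_max_left _ _)).trans hLr
  have e3 : k₀ + 1 + 5 + V₀ ≤ L := by
    have : (((k₀ + 1 + 5 + V₀ : ℕ)) : ℝ) ≤ L := by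
      refine le_trans ?_ ((le_max_right _ _).trans hLr)
      push_cast
      linarith
    exact_mod_cast this
  have hL5 : 6 ≤ L := by omega
  have hLpos : (0 : ℝ) < L := by exact_mod_cast (by omega : 0 < L)
  have hLℓ : L ≤ ℓ := (Nat.le_self_pow (by omega) L).trans hLN
  have hℓpos : (0 : ℝ) < ℓ := by exact_mod_cast (by omega : 0 < ℓ)
  have hδL : 3 + C + (T + 1) ≤ δ * L := by rwa [div_le_iff₀' hδ0] at e1
  have hδℓ : 3 + C + (T + 1) ≤ δ * ℓ :=
    hδL.trans (mul_le_mul_of_nonneg_left (by exact_mod_cast hLℓ) hδ0.le)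
  have hTr : (0 : ℝ) < T := by exact_mod_cast (by omega : 0 < T)
  have hδT : 6 ≤ δ * T := by
    rw [div_le_iff₀' hδ0] at hT₀
    have : (T : ℝ) = T₀ + 1 := by rw [hT]; push_cast; ring
    rw [this]; exact aux_six hδ0 hT₀
  have hδJ : 42 ≤ δ * J₁ := by
    rw [div_le_iff₀' hδ0] at hJ₀
    have h1 : (J₀ : ℝ) ≤ J₁ := by exact_mod_cast (by omega : J₀ ≤ J₁)
    exact hJ₀.trans (mul_le_mul_of_nonneg_left h1 hδ0.le)
  have hδk : 4 ≤ δ * (k₀ + 1 : ℕ) := by
    rw [div_le_iff₀' hδ0] at hk₀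
    push_cast
    exact aux_six hδ0 hk₀
  have hC'L : C' ≤ Real.log L := by rwa [Real.le_log_iff_exp_le hLpos]
  have hC'ℓ : C' ≤ Real.log ℓ := hC'L.trans (Real.log_le_log hLpos (by exact_mod_cast hLℓ))
  obtain ⟨V, hV⟩ : ∃ X : ℕ, X = L ^ 2 := ⟨_, rfl⟩
  obtain ⟨Y, hY⟩ : ∃ X : ℕ, X = ℓ ^ 2 := ⟨_, rfl⟩
  obtain ⟨Z, hZ⟩ : ∃ X : ℕ, X = V ^ 2 ^ (5 * J₁) := ⟨_, rfl⟩
  have hLV : L ≤ V := by rw [hV]; exact Nat.le_self_pow (by norm_num) L
  have hV36 : 36 ≤ V := by rw [hV]; exact aux_sq hL5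
  have hYℓ : ℓ ≤ Y := by rw [hY]; exact Nat.le_self_pow (by norm_num) ℓ
  have hVr : (V : ℝ) = (L : ℝ) ^ 2 := by rw [hV]; push_cast; ring
  have hYr : (Y : ℝ) = (ℓ : ℝ) ^ 2 := by rw [hY]; push_cast; ring
  have hVpos : (0 : ℝ) < V := by rw [hVr]; positivity
  have hYpos : (0 : ℝ) < Y := by rw [hYr]; positivity
  have hZA : Z = L ^ A := by rw [hZ, hV, ← pow_mul, hA]
  have hxℓ : x < 2 ^ ℓ := by rw [hℓ]; exact lt_two_pow_ell x
  have hℓL : ℓ < 2 ^ L := by rw [hL]; exact lt_two_pow_ell ℓ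
  have hℓx : ℓ ≤ x := by
    have h1 : Nat.log 2 x < x := Nat.log_lt_self 2 (by omega)
    rw [hℓ]; unfold ell
    have h3 : 2 ^ 2 ≤ x ∨ x < 4 := by omega
    rcases h3 with h3 | h3
    · have h4 : Nat.log 2 x + 2 ≤ x := by
        have h5 : Nat.log 2 x < x - 1 := by
          refine Nat.log_lt_of_lt_pow (by omega) ?_
          have : ∀ y : ℕ, 3 ≤ y → y + 1 < 2 ^ y := by
            intro y hy
            induction y, hy using Nat.le_induction with
            | base => norm_num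
            | succ y hy ih => rw [pow_succ]; omega
          have := this (x - 1) (by omega)
          omega
        omega
      exact h4
    · exfalso
      have h5 : ell x ≤ 3 + 0 := by
        unfold ell
        have : Nat.log 2 x < 2 := Nat.log_lt_of_lt_pow (by omega) (by omega)
        omega
      omega
  have hZℓ : Z ≤ ℓ := by
    rw [hZA]
    exact (Nat.pow_le_pow_right (by omega) (by omega)).trans hLN
  have hZx : Z ≤ x := hZℓ.trans hℓx
  -- the exceptional sets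
  obtain ⟨W, hW⟩ : ∃ X : ℕ, X = 2 ^ L ^ B := ⟨_, rfl⟩
  set S := primesIn V Z with hS
  set F1 := (Ioc 0 x).filter fun n => ∃ p ∈ Ioc V x, p ^ 2 ∣ n with hF1
  set F2 := (Ioc 0 x).filter fun n => ∃ q ∈ n.primeFactors, ∃ p ∈ n.primeFactors,
    Y < q ∧ q ∣ p - 1 with hF2
  set F3 := (Ioc 0 x).filter fun n => ∃ q, V < q ∧ ∃ k ∈ Ioc 0 Y, q * (k * q + 1) ∣ n with hF3
  set F4 := (Ioc 0 x).filter fun n => ∃ q ∈ n.primeFactors, ∃ p ∈ n.primeFactors,
      V < q ∧ q ^ 2 < p ∧ q ∣ p - 1 with hF4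
  set F5 := (Ioc 0 x).filter fun n => T * Real.log ℓ ≤ Real.log (Sm n Y : ℝ) with hF5
  set F6 := (Ioc 0 x).filter fun n => ∃ q, Y < q ∧ ∃ k ∈ Ioc 0 x, q * (k * q + 1) ∣ n with hF6
  set F7 := (Ioc 0 x).filter fun n => ∃ q, V < q ∧ ∃ k ∈ Ioc 0 (ℓ ^ T), q * (k * q + 1) ∣ n with hF7
  set F8 := (Ioc 0 x).filter fun n => T * Real.log V ≤ Real.log (Sm n V : ℝ) with hF8
  set F9 := (Ioc 0 x).filter fun n => 7 / 2 * (J₁ : ℝ) + J₁ / 2 ≤
    ((S.filter (fun p => p ∣ n)).card : ℝ) with hF9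
  set F10 := (Icc 1 x).filter fun n => Odd n ∧ ¬ HasP W n with hF10
  set F11 := (Ioc 0 x).filter fun n => Y ≤ 2 ^ n.primeFactors.card with hF11
  set F12 := (Ioc 0 x).filter fun n => n.primeFactors.card + (k₀ + 1) ≤ n.primeFactorsList.length
    with hF12
  have hdiv : ∀ a b : ℝ, a ≤ 3 + C + (T + 1) → 0 < b → 3 + C + (T + 1) ≤ δ * b → (x : ℝ) * (a * b) / b ^ 2 ≤ δ * x := by
    intro a b h1 h2 h3
    have h4 : (x : ℝ) * (a * b) / b ^ 2 = x * (a / b) := by field_simp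
    rw [h4, mul_comm δ]
    refine mul_le_mul_of_nonneg_left ?_ hx0.le
    rw [div_le_iff₀ h2]
    linarith
  have hT1 : (0 : ℝ) ≤ T := hTr.le
  have c1 : (F1.card : ℝ) ≤ δ * x := by
    refine (Pool.Agent.Lib.MP_688fd0_co.DEN.card_sq x V (by omega)).trans ?_
    rw [hVr]
    have h1 := hdiv 1 L (by linarith) hLpos hδL
    refine le_trans ?_ h1
    have : (1 : ℝ) ≤ L := by exact_mod_cast (by omega : 1 ≤ L)
    gcongr
    rw [one_mul]
    exact le_mul_of_one_le_right hx0.le this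
  have c2 : (F2.card : ℝ) ≤ δ * x := by
    refine (bad1 x Y (by omega)).trans ?_
    rw [hYr, ← hℓ]
    have h1 := hdiv 1 ℓ (by linarith) hℓpos hδℓ
    rwa [one_mul] at h1
  have hellY : (ell Y : ℝ) ≤ 3 * L := by
    have h1 : Y < 2 ^ (2 * L) := by
      rw [hY, mul_comm, pow_mul]
      exact Nat.pow_lt_pow_left hℓL (by norm_num)
    have h2 := ell_le_of_lt (by omega) h1
    have h3 : ell Y ≤ 3 * L := by omega
    exact_mod_cast h3
  have c3 : (F3.card : ℝ) ≤ δ * x := by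
    refine (card_qk x V Y (by omega)).trans ?_
    rw [hVr]
    refine le_trans ?_ (hdiv 3 L (by linarith) hLpos hδL)
    gcongr
  have c4 : (F4.card : ℝ) ≤ δ * x := by
    refine (hC x V L (by omega) ?_).trans ?_
    · calc x ≤ 2 ^ ℓ := hxℓ.le
        _ ≤ 2 ^ 2 ^ L := Nat.pow_le_pow_right (by norm_num) hℓL.le
        _ ≤ 4 ^ 2 ^ L := Nat.pow_le_pow_left (by norm_num) _
    · rw [hVr]
      exact hdiv C L (by linarith) hLpos hδL
  have hlogℓ : 0 < Real.log ℓ := Real.log_pos (by exact_mod_cast (by omega : 1 < ℓ))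
  have hlogV : 0 < Real.log V := Real.log_pos (by exact_mod_cast (by omega : 1 < V))
  have hmark : ∀ (y : ℕ) (R : ℝ), 1 ≤ y → 0 < R → Real.log y + C' ≤ 3 * R →
      (((Ioc 0 x).filter fun n => T * R ≤ Real.log (Sm n y : ℝ)).card : ℝ) ≤ δ * x := by
    intro y R hy hR0 hyR
    refine (card_smooth_ge x y (T * R) (by positivity)).trans ?_
    have h1 := (hC' y hy).trans hyR
    rw [div_le_iff₀ (by positivity)]
    calc 2 * (x : ℝ) * ∑ q ∈ primesIn 0 y, Real.log q / q ≤ 2 * x * (3 * R) :=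
          mul_le_mul_of_nonneg_left h1 (by positivity)
      _ = 6 * (x * R) := by ring
      _ ≤ (δ * T) * (x * R) := mul_le_mul_of_nonneg_right hδT (by positivity)
      _ = δ * x * (T * R) := by ring
  have c5 : (F5.card : ℝ) ≤ δ * x := by
    refine hmark Y (Real.log ℓ) (by omega) hlogℓ ?_
    rw [hYr, Real.log_pow]
    push_cast
    linarith
  have c6 : (F6.card : ℝ) ≤ δ * x := by
    refine (card_qk x Y x (by omega)).trans ?_
    rw [hYr, ← hℓ]
    have h1 := hdiv 1 ℓ (by linarith) hℓpos hδℓ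
    rwa [one_mul] at h1
  have c7 : (F7.card : ℝ) ≤ δ * x := by
    refine (card_qk x V (ℓ ^ T) (by omega)).trans ?_
    have h1 : ell (ℓ ^ T) ≤ (T + 1) * L := by
      have h2 : ℓ ^ T < 2 ^ (L * T + 1) := by
        calc ℓ ^ T ≤ (2 ^ L) ^ T := Nat.pow_le_pow_left hℓL.le T
          _ = 2 ^ (L * T) := by rw [pow_mul]
          _ < 2 ^ (L * T + 1) := Nat.pow_lt_pow_right (by norm_num) (by omega)
      have h3 := ell_le_of_lt (by omega) h2
      exact aux_c7 hL5 h3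
    have h1' : (ell (ℓ ^ T) : ℝ) ≤ (T + 1) * L := by exact_mod_cast h1
    rw [hVr]
    refine le_trans ?_ (hdiv (T + 1) L (by linarith) hLpos hδL)
    gcongr
  have c8 : (F8.card : ℝ) ≤ δ * x := by
    refine hmark V (Real.log V) (by omega) hlogV ?_
    have : Real.log L ≤ Real.log V := Real.log_le_log hLpos (by exact_mod_cast hLV)
    linarith
  have hSp : ∀ p ∈ S, p.Prime := fun p hp => (mem_primesIn.mp hp).2
  have hScard : S.card ≤ x := by
    have h1 : S ⊆ Ioc 0 x := by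
      intro p hp
      have h2 := mem_primesIn.mp hp
      rw [mem_Ioc]
      exact ⟨h2.2.pos, h2.1.2.trans hZx⟩
    simpa using Finset.card_le_card h1
  have hJ₁pos : (0 : ℝ) < J₁ := by exact_mod_cast (by omega : 0 < J₁)
  have c9 : (F9.card : ℝ) ≤ δ * x := by
    have h1 := hV₀ V (5 * J₁) (by omega) (by omega)
    rw [← hZ, ← hS] at h1
    have h2 : ∑ p ∈ S, (1 : ℝ) / p ≤ 7 / 2 * J₁ := by
      refine h1.trans_eq ?_
      push_cast; ring
    refine (card_many x S hSp hScard (7 / 2 * J₁) (J₁ / 2) h2 (by positivity)).trans ?_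
    rw [div_le_iff₀ (by positivity)]
    calc 3 * (x : ℝ) * (7 / 2 * J₁) = 42 * (x * (J₁ / 4)) := by ring
      _ ≤ (δ * J₁) * (x * (J₁ / 4)) := mul_le_mul_of_nonneg_right hδJ (by positivity)
      _ = δ * x * (J₁ / 2) ^ 2 := by ring
  have hBL : 5 * L ≤ L ^ B := by
    calc 5 * L ≤ L * L := Nat.mul_le_mul_right L (by omega)
      _ = L ^ 2 := by ring
      _ ≤ L ^ B := Nat.pow_le_pow_right (by omega) (by omega)
  have c10 : (F10.card : ℝ) ≤ δ * x := by
    refine hP x W (by rw [← hℓ]; exact g1) ?_ ?_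
    · rw [← hℓ]
      calc ℓ ^ 5 ≤ (2 ^ L) ^ 5 := Nat.pow_le_pow_left hℓL.le 5
        _ = 2 ^ (5 * L) := by rw [← pow_mul, mul_comm]
        _ ≤ W := by rw [hW]; exact Nat.pow_le_pow_right (by norm_num) hBL
    · rw [hW, ← pow_mul]
      refine Nat.pow_le_of_le_log (by omega) ?_
      have h1 : L ^ B * 2 ^ J' + 2 ≤ L ^ N := by
        calc L ^ B * 2 ^ J' + 2 ≤ L ^ B * L ^ J' + 2 :=
              Nat.add_le_add_right (Nat.mul_le_mul_left _ (Nat.pow_le_pow_left (by omega) J')) 2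
          _ = L ^ (B + J') + 2 := by rw [pow_add]
          _ ≤ L ^ (B + J') * L := by
              have h3 : 1 ≤ L ^ (B + J') := Nat.one_le_pow _ _ (by omega)
              exact aux_pow h3 hL5
          _ = L ^ (B + J' + 1) := by rw [pow_succ]
          _ ≤ L ^ N := Nat.pow_le_pow_right (by omega) (by omega)
      have h2 : ℓ = Nat.log 2 x + 2 := by rw [hℓ]; unfold ell; rfl
      omega
  have c11 : (F11.card : ℝ) ≤ δ * x := by
    refine (bad2 x Y (by omega)).trans ?_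
    rw [hYr, ← hℓ]
    have h1 := hdiv 1 ℓ (by linarith) hℓpos hδℓ
    rwa [one_mul] at h1
  have c12 : (F12.card : ℝ) ≤ δ * x := by
    refine (Pool.Agent.Lib.MP_688fd0_co.OSF.H23.bad6 x (k₀ + 1) (by omega)).trans ?_
    rw [div_le_iff₀ (by positivity)]
    calc 4 * (x : ℝ) ≤ (δ * (k₀ + 1 : ℕ)) * x := mul_le_mul_of_nonneg_right hδk hx0.le
      _ = δ * x * (k₀ + 1 : ℕ) := by ring
  -- inclusion
  have hsub : (Icc 1 x).filter (fun n => Odd n ∧ ¬ Nice c n) ⊆
      F1 ∪ (F2 ∪ (F3 ∪ (F4 ∪ (F5 ∪ (F6 ∪ (F7 ∪ (F8 ∪ (F9 ∪ (F10 ∪ (F11 ∪ F12)))))))))) := by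
    intro n hn
    rw [mem_filter] at hn
    obtain ⟨hn0, hodd, hnice⟩ := hn
    have hn0' := mem_Icc.1 hn0
    have hnI : n ∈ Ioc 0 x := by rw [mem_Ioc]; omega
    have hnz : n ≠ 0 := by omega
    by_contra hcon
    simp only [mem_union, not_or] at hcon
    obtain ⟨n1, n2, n3, n4, n5, n6, n7, n8, n9, n10, n11, n12⟩ := hcon
    rw [hF1, mem_filter] at n1
    rw [hF2, mem_filter] at n2
    rw [hF3, mem_filter] at n3
    rw [hF4, mem_filter] at n4
    rw [hF5, mem_filter] at n5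
    rw [hF6, mem_filter] at n6
    rw [hF7, mem_filter] at n7
    rw [hF8, mem_filter] at n8
    rw [hF9, mem_filter] at n9
    rw [hF10, mem_filter] at n10
    rw [hF11, mem_filter] at n11
    rw [hF12, mem_filter] at n12
    apply hnice
    have hle : ∀ p ∈ n.primeFactors, p ≤ x := fun p hp =>
      (Nat.le_of_dvd (by omega) (Nat.dvd_of_mem_primeFactors hp)).trans hn0'.2
    refine nice_of (T := T) (J₁ := J₁) (L := L) (W := W) (V := V) hnz (by omega) ?_ ?_ ?_ ?_ ?_ ?_ ?_ ?_ ?_ ?_ ?_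
    · -- squares
      intro p hp hVp hd
      exact n1 ⟨hnI, p, mem_Ioc.2 ⟨hVp, hle p hp⟩, hd⟩
    · -- pairs
      intro q hq p hp hVq hd
      have hqp := Nat.prime_of_mem_primeFactors hq
      have hpp := Nat.prime_of_mem_primeFactors hp
      rcases Nat.lt_or_ge Y q with hYq | hqY
      · exact n2 ⟨hnI, q, hq, p, hp, hYq, hd⟩
      rcases Nat.lt_or_ge (q ^ 2) p with hpq | hpq
      · exact n4 ⟨hnI, q, hq, p, hp, hVq, hpq, hd⟩
      · obtain ⟨k, hk⟩ := hd
        have hp1 : p = k * q + 1 := by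
          have := hpp.two_le
          rw [mul_comm] at hk
          omega
        have hk0 : 0 < k := by
          rcases Nat.eq_zero_or_pos k with h | h
          · subst h
            have := hpp.two_le
            omega
          · exact h
        have hne : q ≠ p := by
          intro h
          have : q ≤ k * q := Nat.le_mul_of_pos_left q hk0
          omega
        have hcop : Nat.Coprime q p := (Nat.coprime_primes hqp hpp).mpr hne
        have hkq : k ≤ q := by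
          have h1 : k * q ≤ q * q := by rw [← sq]; omega
          exact Nat.le_of_mul_le_mul_right h1 hqp.pos
        refine n3 ⟨hnI, q, hVq, k, mem_Ioc.2 ⟨hk0, hkq.trans hqY⟩, ?_⟩
        rw [← hp1]
        exact hcop.mul_dvd_of_dvd_of_dvd (Nat.dvd_of_mem_primeFactors hq) (Nat.dvd_of_mem_primeFactors hp)
    · -- Sylow
      intro p hp hVp d hd hdm hdp
      have hpp := Nat.prime_of_mem_primeFactors hp
      by_contra hd1
      have hd0 : d ≠ 0 := by rintro rfl; exact hnz (Nat.eq_zero_of_zero_dvd hd)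
      have hd2 : 1 < d := by omega
      have hdvd : p ∣ d - 1 := (Nat.modEq_iff_dvd' hd2.le).1 hdm.symm
      obtain ⟨k, hk⟩ := hdvd
      have hdk : d = k * p + 1 := by
        rw [mul_comm] at hk
        omega
      have hk0 : 0 < k := by
        rcases Nat.eq_zero_or_pos k with h | h
        · subst h; omega
        · exact h
      have hcop : Nat.Coprime p d := by
        rw [hpp.coprime_iff_not_dvd, hdk]
        intro h
        have := (Nat.dvd_add_right (Dvd.intro_left k rfl)).1 h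
        exact hpp.one_lt.ne' (Nat.dvd_one.1 this)
      have hmul : p * (k * p + 1) ∣ n := by
        rw [← hdk]
        exact hcop.mul_dvd_of_dvd_of_dvd (Nat.dvd_of_mem_primeFactors hp) hd
      have hkd : k ≤ d := by
        have : k ≤ k * p := Nat.le_mul_of_pos_right k hpp.pos
        omega
      rcases Nat.lt_or_ge Y p with hYp | hpY
      · refine n6 ⟨hnI, p, hYp, k, mem_Ioc.2 ⟨hk0, ?_⟩, hmul⟩
        exact hkd.trans ((Nat.le_of_dvd (by omega) hd).trans hn0'.2)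
      · refine n7 ⟨hnI, p, hVp, k, mem_Ioc.2 ⟨hk0, hkd.trans ?_⟩, hmul⟩
        -- d divides the smooth part
        have h1 : d.Coprime (Ro n Y) := by
          refine Nat.coprime_of_dvd ?_
          intro r hr h3 h4
          have h5 := mem_primeFactors_Ro hnz (Nat.mem_primeFactors.2 ⟨hr, h4, (Ro_pos n Y).ne'⟩)
          have h6 := hdp r (Nat.mem_primeFactors.2 ⟨hr, h3, hd0⟩)
          omega
        have h2 : d ∣ Sm n Y := by
          have h3 : d ∣ Sm n Y * Ro n Y := by rw [Sm_mul_Ro hnz]; exact hd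
          exact h1.dvd_of_dvd_mul_right h3
        have h3 : Real.log (Sm n Y : ℝ) < T * Real.log ℓ := by
          by_contra h
          exact n5 ⟨hnI, not_lt.1 h⟩
        have h4 : Sm n Y ≤ ℓ ^ T := by
          have h5 : (Sm n Y : ℝ) < (ℓ : ℝ) ^ T := by
            rw [← Real.log_lt_log_iff (by exact_mod_cast Sm_pos n Y) (by positivity), Real.log_pow]
            exact h3
          have h6 : Sm n Y < ℓ ^ T := by exact_mod_cast h5
          exact h6.le
        exact (Nat.le_of_dvd (Sm_pos n Y) h2).trans h4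
    · -- smooth part
      have h3 : Real.log (Sm n V : ℝ) < T * Real.log V := by
        by_contra h
        exact n8 ⟨hnI, not_lt.1 h⟩
      have h5 : (Sm n V : ℝ) < (V : ℝ) ^ T := by
        rw [← Real.log_lt_log_iff (by exact_mod_cast Sm_pos n V) (by positivity), Real.log_pow]
        exact h3
      have h6 : Sm n V < V ^ T := by exact_mod_cast h5
      exact h6.le
    · -- count
      have h1 : ((S.filter (fun p => p ∣ n)).card : ℝ) < 7 / 2 * (J₁ : ℝ) + J₁ / 2 := by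
        by_contra h
        exact n9 ⟨hnI, not_lt.1 h⟩
      have h2 : cnt n V (V ^ 2 ^ (5 * J₁)) = (S.filter (fun p => p ∣ n)).card := by
        rw [← hZ]
        unfold cnt
        congr 1
        ext p
        rw [mem_filter, mem_filter, mem_primesIn, Nat.mem_primeFactors]
        constructor
        · rintro ⟨⟨h3, h4, _⟩, h5, h6⟩
          exact ⟨⟨⟨h5, h6⟩, h3⟩, h4⟩
        · rintro ⟨⟨⟨h5, h6⟩, h3⟩, h4⟩
          exact ⟨⟨h3, h4, hnz⟩, h5, h6⟩
      rw [h2]
      have h3 : ((S.filter (fun p => p ∣ n)).card : ℝ) < ((4 * J₁ : ℕ) : ℝ) := by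
        push_cast
        linarith
      have h4 : (S.filter (fun p => p ∣ n)).card < 4 * J₁ := by exact_mod_cast h3
      exact h4.le
    · -- T + 1 ≤ 2 ^ J₁
      have h1 : J₁ < 2 ^ J₁ := Nat.lt_two_pow_self
      omega
    · -- Omega
      have h1 : 2 ^ n.primeFactors.card < Y := by
        by_contra h
        exact n11 ⟨hnI, not_lt.1 h⟩
      have h2 : n.primeFactorsList.length < n.primeFactors.card + (k₀ + 1) := by
        by_contra h
        exact n12 ⟨hnI, not_lt.1 h⟩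
      have h3 : 2 ^ n.primeFactors.card < 2 ^ (2 * L) := by
        refine h1.trans ?_
        rw [hY, mul_comm, pow_mul]
        exact Nat.pow_lt_pow_left hℓL (by norm_num)
      have h4 : n.primeFactors.card < 2 * L := (Nat.pow_lt_pow_iff_right (by norm_num)).1 h3
      omega
    · rw [hV]; exact aux_sq3 hL5
    · by_contra h
      exact n10 ⟨hn0, hodd, h⟩
    · -- size
      rw [hW]
      refine Nat.pow_le_pow_right (by norm_num) ?_
      rw [← hZ, hZA]
      have h1 : L ^ A + 3 * L ≤ L ^ (A + 1) := by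
        have h2 : 1 ≤ A := by
          rw [hA]
          have : 0 < 2 ^ (5 * J₁) := by positivity
          omega
        have h3 : L ≤ L ^ A := Nat.le_self_pow (by omega) L
        rw [pow_succ]
        exact aux_pow2 h3 hL5
      calc (L ^ A + 3 * L) ^ c ≤ (L ^ (A + 1)) ^ c := Nat.pow_le_pow_left h1 c
        _ = L ^ ((A + 1) * c) := by rw [← pow_mul]
        _ ≤ L ^ B := Nat.pow_le_pow_right (by omega) (by omega)
    · rw [← hZ, hZA, hW]
      calc L ^ A ≤ L ^ B := Nat.pow_le_pow_right (by omega) (by omega)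
        _ ≤ 2 ^ L ^ B := Nat.lt_two_pow_self.le
  have hcard := Finset.card_le_card hsub
  have hun : (F1 ∪ (F2 ∪ (F3 ∪ (F4 ∪ (F5 ∪ (F6 ∪ (F7 ∪ (F8 ∪ (F9 ∪ (F10 ∪ (F11 ∪ F12))))))))))).card ≤
      F1.card + (F2.card + (F3.card + (F4.card + (F5.card + (F6.card + (F7.card + (F8.card +
        (F9.card + (F10.card + (F11.card + F12.card)))))))))) := by
    refine (card_union_le _ _).trans (Nat.add_le_add_left ?_ _)
    refine (card_union_le _ _).trans (Nat.add_le_add_left ?_ _)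
    refine (card_union_le _ _).trans (Nat.add_le_add_left ?_ _)
    refine (card_union_le _ _).trans (Nat.add_le_add_left ?_ _)
    refine (card_union_le _ _).trans (Nat.add_le_add_left ?_ _)
    refine (card_union_le _ _).trans (Nat.add_le_add_left ?_ _)
    refine (card_union_le _ _).trans (Nat.add_le_add_left ?_ _)
    refine (card_union_le _ _).trans (Nat.add_le_add_left ?_ _)
    refine (card_union_le _ _).trans (Nat.add_le_add_left ?_ _)
    refine (card_union_le _ _).trans (Nat.add_le_add_left ?_ _)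
    exact card_union_le _ _
  have hfin : (((Icc 1 x).filter (fun n => Odd n ∧ ¬ Nice c n)).card : ℝ) ≤
      F1.card + (F2.card + (F3.card + (F4.card + (F5.card + (F6.card + (F7.card + (F8.card +
        (F9.card + (F10.card + (F11.card + (F12.card : ℝ))))))))))) := by
    exact_mod_cast hcard.trans hun
  have hεδ : ε = 12 * δ := by rw [hδ]; ring
  rw [hεδ]
  linarith

/-- NICE -/
theorem niceS : NiceS :=
  niceS_of Pool.Agent.Lib.MP_688fd0_co.OSF.H38.mertap Pool.Agent.Lib.MP_688fd0_co.OSF.H38.recg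
    Pool.Agent.Lib.MP_688fd0_co.OSF.H38.btsum

end Pool.Agent.Lib.MP_688fd0_co.SQ2.H41
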