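import Pool.Agent.Lib.MP_688fd0_co.SQ2.Iface

/-!
GNQ: quotients of groups with the structure `GN`.
-/

set_option autoImplicit false

namespace Pool.Agent.Lib.MP_688fd0_co.SQ2.H41

open Subgroup

/-- In a finite cyclic group, an element killed by the order of `g` is a power of `g`. -/
theorem mem_zpowers_of_pow {G : Type*} [Group G] [Finite G] (N : Subgroup G) (hNc : IsCyclic N) {g x : G}
    (hg : g ∈ N) (hx : x ∈ N) (h : x ^ orderOf g = 1) : x ∈ zpowers g := by
  classical
  have := Fintype.ofFinite N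
  set g' : N := ⟨g, hg⟩ with hg'
  have ho : orderOf g' = orderOf g := Subgroup.orderOf_mk g hg
  have hle := IsCyclic.card_pow_eq_one_le (α := N) (n := orderOf g) (orderOf_pos g)
  set S : Finset N := Finset.univ.filter fun y : N => y ∈ zpowers g' with hS
  have hScard : S.card = orderOf g := by
    rw [← ho, ← Nat.card_zpowers, hS, Nat.card_eq_fintype_card, ← Fintype.card_subtype]
  have hsub : S ⊆ Finset.univ.filter fun y : N => y ^ orderOf g = 1 := by
    intro y hy
    simp only [hS, Finset.mem_filter, Finset.mem_univ, true_and] at hy ⊢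
    obtain ⟨i, rfl⟩ := Subgroup.mem_zpowers_iff.1 hy
    rw [← ho, ← zpow_natCast, ← zpow_mul, mul_comm, zpow_mul, zpow_natCast, pow_orderOf_eq_one, one_zpow]
  have heq := Finset.eq_of_subset_of_card_le hsub (by rw [hScard]; exact hle)
  have hx' : (⟨x, hx⟩ : N) ∈ S := by
    rw [heq]
    simp only [Finset.mem_filter, Finset.mem_univ, true_and]
    exact Subtype.ext h
  simp only [hS, Finset.mem_filter, Finset.mem_univ, true_and] at hx'
  obtain ⟨i, hi⟩ := Subgroup.mem_zpowers_iff.1 hx'
  refine Subgroup.mem_zpowers_iff.2 ⟨i, ?_⟩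
  have := congrArg (fun y : N => (y : G)) hi
  simpa using this

theorem zpowers_normal {G : Type*} [Group G] [Finite G] (N : Subgroup G) (hNn : N.Normal) (hNc : IsCyclic N)
    {g : G} (hg : g ∈ N) : (zpowers g).Normal := by
  refine ⟨fun x hx h => ?_⟩
  have hxN : x ∈ N := (Subgroup.zpowers_le.2 hg) hx
  refine mem_zpowers_of_pow N hNc hg (hNn.conj_mem x hxN h) ?_
  obtain ⟨i, rfl⟩ := Subgroup.mem_zpowers_iff.1 hx
  rw [conj_pow, ← zpow_natCast (g ^ i), ← zpow_mul, mul_comm, zpow_mul, zpow_natCast, pow_orderOf_eq_one, one_zpow]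
  simp

theorem gn_map {G H : Type*} [Group G] [Finite G] [Group H] [Finite H] {N C : Subgroup G} {k P : ℕ} (h : GN N C k P)
    {g : G} (hg : g ∈ C) (f : G →* H) (hfs : Function.Surjective f) (hker : f.ker = zpowers g) :
    GN (N.map f) (C.map f) k P := by
  have hCN := h.CN
  have hgN : g ∈ N := hCN hg
  have hZC : zpowers g ≤ C := Subgroup.zpowers_le.2 hg
  have hcommN : ∀ x ∈ N, ∀ y ∈ N, x * y = y * x := by
    intro x hx y hy
    have hNc := h.Nc
    obtain ⟨γ, hγ⟩ := IsCyclic.exists_generator (α := N)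
    obtain ⟨i, hi⟩ := Subgroup.mem_zpowers_iff.1 (hγ ⟨x, hx⟩)
    obtain ⟨j, hj⟩ := Subgroup.mem_zpowers_iff.1 (hγ ⟨y, hy⟩)
    have h1 : (⟨x, hx⟩ : N) * ⟨y, hy⟩ = ⟨y, hy⟩ * ⟨x, hx⟩ := by
      rw [← hi, ← hj, ← zpow_add, ← zpow_add, add_comm]
    exact congrArg (fun y : N => (y : G)) h1
  have hNidx : (N.map f).index = N.index :=
    Subgroup.index_map_eq N hfs (by rw [hker]; exact hZC.trans hCN)
  have hCidx : (C.map f).index = C.index := Subgroup.index_map_eq C hfs (by rw [hker]; exact hZC)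
  have hNd : Nat.card (N.map f) ∣ Nat.card N := Subgroup.card_map_dvd N f
  have hCd : Nat.card (C.map f) ∣ Nat.card C := Subgroup.card_map_dvd C f
  have hNeq : Nat.card N = Nat.card (N.map f) * orderOf g := by
    have h1 := N.card_mul_index
    have h2 := (N.map f).card_mul_index
    have h3 := f.ker.card_mul_index
    have h5 : f.ker.index = Nat.card H := by
      rw [Subgroup.index_ker, MonoidHom.range_eq_top.2 hfs, Subgroup.card_top]
    rw [h5, hker, Nat.card_zpowers] at h3
    rw [hNidx] at h2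
    refine Nat.eq_of_mul_eq_mul_right (Nat.pos_of_ne_zero N.index_ne_zero_of_finite) ?_
    rw [h1, ← h3, ← h2, mul_comm (orderOf g), mul_right_comm]
  refine ⟨h.Nn.map f hfs, ?_, Subgroup.map_mono hCN, h.Cn.map f hfs, ?_, hNidx.trans h.idx, ?_, ?_, ?_, ?_,
    h.prime, ?_, ?_, ?_, ?_⟩
  · have hNc := h.Nc
    exact isCyclic_of_surjective (f.subgroupMap N) (f.subgroupMap_surjective N)
  · rintro n' ⟨n, hn, rfl⟩ g'
    obtain ⟨x, rfl⟩ := hfs g'
    exact ⟨n * x * n⁻¹ * x⁻¹, h.cen n hn x, by simp⟩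
  · exact h.cop.coprime_dvd_left hNd
  · exact h.Csq.squarefree_of_dvd hCd
  · rw [hCidx]; exact h.Ccop.coprime_dvd_left hCd
  · rintro c' ⟨c, hc, rfl⟩ hcc
    -- the order of `g` and its complement
    obtain ⟨m', hm'⟩ : orderOf g ∣ Nat.card C := by
      have := orderOf_dvd_natCard (⟨g, hg⟩ : C)
      rwa [Subgroup.orderOf_mk] at this
    have hcop : (orderOf g).Coprime m' := by
      have := h.Csq
      rw [hm'] at this
      exact Nat.coprime_of_squarefree_mul this
    have hy : (c ^ orderOf g) ^ m' = 1 := by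
      rw [← pow_mul, ← hm']
      have := pow_card_eq_one' (x := (⟨c, hc⟩ : C))
      exact congrArg (fun y : C => (y : G)) this
    have hyC : c ^ orderOf g ∈ C := C.pow_mem hc _
    have hycen : ∀ x : G, c ^ orderOf g * x = x * c ^ orderOf g := by
      intro x
      set y := c ^ orderOf g with hydef
      -- the commutator
      have hxy : x * y⁻¹ * x⁻¹ ∈ C := h.Cn.conj_mem _ (C.inv_mem hyC) x
      have e1 : (y * (x * y⁻¹ * x⁻¹)) ^ m' = 1 := by
        have hcm : Commute y (x * y⁻¹ * x⁻¹) := hcommN _ (hCN hyC) _ (hCN hxy)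
        rw [hcm.mul_pow, hy, one_mul, conj_pow, inv_pow, hy]
        simp
      have e2 : (y * (x * y⁻¹ * x⁻¹)) ^ orderOf g = 1 := by
        have hmem : y * (x * y⁻¹ * x⁻¹) ∈ zpowers g := by
          rw [← hker, MonoidHom.mem_ker]
          have h5 : f y * f x = f x * f y := by
            rw [hydef, map_pow]
            exact (show Commute (f c) (f x) from hcc (f x)).pow_left _
          rw [map_mul, map_mul, map_mul, map_inv, map_inv]
          rw [← mul_assoc, ← mul_assoc, h5]
          group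
        obtain ⟨i, hi⟩ := Subgroup.mem_zpowers_iff.1 hmem
        rw [← hi, ← zpow_natCast (g ^ i), ← zpow_mul, mul_comm, zpow_mul, zpow_natCast, pow_orderOf_eq_one, one_zpow]
      have e3 : orderOf (y * (x * y⁻¹ * x⁻¹)) ∣ 1 := by
        rw [← hcop]
        exact Nat.dvd_gcd (orderOf_dvd_of_pow_eq_one e2) (orderOf_dvd_of_pow_eq_one e1)
      have e4 := orderOf_eq_one_iff.1 (Nat.dvd_one.1 e3)
      calc y * x = (y * (x * y⁻¹ * x⁻¹)) * (x * y) := by group
        _ = x * y := by rw [e4, one_mul]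
    have hone := h.ncen _ hyC hycen
    have hmem := mem_zpowers_of_pow N h.Nc hgN (hCN hc) hone
    rw [← MonoidHom.mem_ker, hker]
    exact hmem
  · have h1 := h.dvd
    rw [hNeq] at h1
    rcases (h.prime.dvd_mul).1 h1 with h2 | h2
    · exact h2
    · exfalso
      have h3 : orderOf g ∣ Nat.card C := by
        have := orderOf_dvd_natCard (⟨g, hg⟩ : C)
        rwa [Subgroup.orderOf_mk] at this
      exact h.ndvd (h2.trans h3)
  · exact fun h1 => h.ndvd (h1.trans hCd)
  · exact fun h1 => h.sq (h1.trans hNd)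
  · intro p hp
    exact h.big p (Nat.primeFactors_mono hCd Nat.card_pos.ne' hp)

theorem gnq : GnqS := by
  intro G _ _ N C k P h g hg
  have hZ : (zpowers g).Normal := zpowers_normal N h.Nn h.Nc (h.CN hg)
  exact ⟨hZ, gn_map h hg (QuotientGroup.mk' (zpowers g)) (QuotientGroup.mk'_surjective _)
    (QuotientGroup.ker_mk' _)⟩

end Pool.Agent.Lib.MP_688fd0_co.SQ2.H41
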