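import Pool.Agent.Lib.MP_688fd0_co.SQ2.Iface
import Pool.Agent.Lib.MP_688fd0_co.SQ2.H87.Sep

/-!
SCALE in the form of the interface.
-/

set_option autoImplicit false

namespace Pool.Agent.Lib.MP_688fd0_co.SQ2.H41

open Pool.Agent.Lib.MP_688fd0_co.OSF

/-! ### Growth -/

/-- polynomial growth -/
def PP (F : ℕ → ℕ → ℕ → ℕ) : Prop := ∃ a, ∀ ρ k r, 0 < k → F ρ k r ≤ (k + ρ + r + 1) ^ a

/-- exponential of polynomial growth -/
def PE (F : ℕ → ℕ → ℕ → ℕ) : Prop := ∃ a, ∀ ρ k r, 0 < k → F ρ k r ≤ 2 ^ ((k + ρ + r + 1) ^ a)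

section

variable {F G : ℕ → ℕ → ℕ → ℕ}

lemma dbl {x : ℕ} (hx : 2 ≤ x) (m : ℕ) : 2 * x ^ m ≤ x ^ (m + 1) := by
  rw [pow_succ, mul_comm]; exact Nat.mul_le_mul_left _ hx

lemma pow_mono_max {x : ℕ} (hx : 2 ≤ x) (a b : ℕ) : x ^ a ≤ x ^ max a b ∧ x ^ b ≤ x ^ max a b :=
  ⟨Nat.pow_le_pow_right (by omega) (le_max_left _ _), Nat.pow_le_pow_right (by omega) (le_max_right _ _)⟩

lemma PP.mono (hF : PP F) (h : ∀ ρ k r, 0 < k → G ρ k r ≤ F ρ k r) : PP G := by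
  obtain ⟨a, ha⟩ := hF
  exact ⟨a, fun ρ k r hk => (h ρ k r hk).trans (ha ρ k r hk)⟩

lemma PP.add (hF : PP F) (hG : PP G) : PP (fun ρ k r => F ρ k r + G ρ k r) := by
  obtain ⟨a, ha⟩ := hF
  obtain ⟨b, hb⟩ := hG
  refine ⟨max a b + 1, fun ρ k r hk => ?_⟩
  have hx : 2 ≤ k + ρ + r + 1 := by omega
  have h1 := ha ρ k r hk
  have h2 := hb ρ k r hk
  obtain ⟨h3, h4⟩ := pow_mono_max hx a b
  have h5 := dbl hx (max a b)
  show F ρ k r + G ρ k r ≤ _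
  omega

lemma PP.mul (hF : PP F) (hG : PP G) : PP (fun ρ k r => F ρ k r * G ρ k r) := by
  obtain ⟨a, ha⟩ := hF
  obtain ⟨b, hb⟩ := hG
  refine ⟨a + b, fun ρ k r hk => ?_⟩
  rw [pow_add]
  exact Nat.mul_le_mul (ha ρ k r hk) (hb ρ k r hk)

lemma PP.const (c : ℕ) : PP (fun _ _ _ => c) := by
  refine ⟨c, fun ρ k r hk => ?_⟩
  have hx : 2 ≤ k + ρ + r + 1 := by omega
  exact (Nat.lt_two_pow_self (n := c)).le.trans (Nat.pow_le_pow_left hx c)

lemma PP.pow (hF : PP F) (m : ℕ) : PP (fun ρ k r => F ρ k r ^ m) := by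
  obtain ⟨a, ha⟩ := hF
  refine ⟨a * m, fun ρ k r hk => ?_⟩
  rw [pow_mul]
  exact Nat.pow_le_pow_left (ha ρ k r hk) m

lemma PP.k : PP (fun _ k _ => k) := ⟨1, fun ρ k r _ => by rw [pow_one]; dsimp only; omega⟩

lemma PP.ρ : PP (fun ρ _ _ => ρ) := ⟨1, fun ρ k r _ => by rw [pow_one]; dsimp only; omega⟩

lemma PP.r : PP (fun _ _ r => r) := ⟨1, fun ρ k r _ => by rw [pow_one]; dsimp only; omega⟩

lemma PP.pe (hF : PP F) : PE F := by
  obtain ⟨a, ha⟩ := hF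
  exact ⟨a, fun ρ k r hk => (ha ρ k r hk).trans Nat.lt_two_pow_self.le⟩

lemma PE.mono (hF : PE F) (h : ∀ ρ k r, 0 < k → G ρ k r ≤ F ρ k r) : PE G := by
  obtain ⟨a, ha⟩ := hF
  exact ⟨a, fun ρ k r hk => (h ρ k r hk).trans (ha ρ k r hk)⟩

lemma PE.mul (hF : PE F) (hG : PE G) : PE (fun ρ k r => F ρ k r * G ρ k r) := by
  obtain ⟨a, ha⟩ := hF
  obtain ⟨b, hb⟩ := hG
  refine ⟨max a b + 1, fun ρ k r hk => ?_⟩
  have hx : 2 ≤ k + ρ + r + 1 := by omega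
  obtain ⟨h3, h4⟩ := pow_mono_max hx a b
  have h5 := dbl hx (max a b)
  calc F ρ k r * G ρ k r ≤ 2 ^ ((k + ρ + r + 1) ^ a) * 2 ^ ((k + ρ + r + 1) ^ b) :=
        Nat.mul_le_mul (ha ρ k r hk) (hb ρ k r hk)
    _ = 2 ^ ((k + ρ + r + 1) ^ a + (k + ρ + r + 1) ^ b) := by rw [pow_add]
    _ ≤ _ := Nat.pow_le_pow_right (by norm_num) (by omega)

lemma PE.add (hF : PE F) (hG : PE G) : PE (fun ρ k r => F ρ k r + G ρ k r) := by
  obtain ⟨a, ha⟩ := hF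
  obtain ⟨b, hb⟩ := hG
  refine ⟨max a b + 1, fun ρ k r hk => ?_⟩
  have hx : 2 ≤ k + ρ + r + 1 := by omega
  obtain ⟨h3, h4⟩ := pow_mono_max hx a b
  have h5 := dbl hx (max a b)
  have h6 : 1 ≤ (k + ρ + r + 1) ^ max a b := Nat.one_le_pow _ _ (by omega)
  calc F ρ k r + G ρ k r ≤ 2 ^ ((k + ρ + r + 1) ^ max a b) + 2 ^ ((k + ρ + r + 1) ^ max a b) :=
        Nat.add_le_add ((ha ρ k r hk).trans (Nat.pow_le_pow_right (by norm_num) h3))
          ((hb ρ k r hk).trans (Nat.pow_le_pow_right (by norm_num) h4))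
    _ = 2 ^ ((k + ρ + r + 1) ^ max a b + 1) := by rw [pow_succ]; ring
    _ ≤ _ := Nat.pow_le_pow_right (by norm_num) (by omega)

lemma PE.pow (hF : PE F) (hG : PP G) : PE (fun ρ k r => F ρ k r ^ G ρ k r) := by
  obtain ⟨a, ha⟩ := hF
  obtain ⟨b, hb⟩ := hG
  refine ⟨a + b, fun ρ k r hk => ?_⟩
  calc F ρ k r ^ G ρ k r ≤ (2 ^ ((k + ρ + r + 1) ^ a)) ^ G ρ k r := Nat.pow_le_pow_left (ha ρ k r hk) _
    _ ≤ (2 ^ ((k + ρ + r + 1) ^ a)) ^ ((k + ρ + r + 1) ^ b) :=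
        Nat.pow_le_pow_right (by positivity) (hb ρ k r hk)
    _ = 2 ^ ((k + ρ + r + 1) ^ (a + b)) := by rw [← pow_mul, ← pow_add]

end

/-! ### The factor -/

/-- the number of strands -/
def sg (ρ k _r : ℕ) : ℕ := (ρ + 2) ^ 4 * k

/-- the factor of the windows -/
def HH (ρ k r : ℕ) : ℕ :=
  100 * (r + 2) ^ 2 * 2 ^ r * (1000 * (sg ρ k r * k * sg ρ k r ^ sg ρ k r + 10) *
    (4 * (sg ρ k r).factorial + 8 * k + 12) + 4 * k)

lemma pp_sg : PP sg := ((PP.ρ.add (PP.const 2)).pow 4).mul PP.k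

lemma pe_HH : PE HH := by
  have h1 := pp_sg
  have h2 : PE (fun ρ k r => sg ρ k r ^ sg ρ k r) := h1.pe.pow h1
  have h3 : PE (fun ρ k r => (sg ρ k r).factorial) := h2.mono fun ρ k r _ => Nat.factorial_le_pow _
  have h4 : PE (fun _ _ r => 2 ^ r) := (PP.const 2).pe.pow PP.r
  have h5 : PE (fun ρ k r => sg ρ k r * k * sg ρ k r ^ sg ρ k r + 10) :=
    ((h1.pe.mul PP.k.pe).mul h2).add (PP.const 10).pe
  have h6 : PE (fun ρ k r => 4 * (sg ρ k r).factorial + 8 * k + 12) :=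
    (((PP.const 4).pe.mul h3).add ((PP.const 8).mul PP.k).pe).add (PP.const 12).pe
  exact ((((PP.const 100).mul ((PP.r.add (PP.const 2)).pow 2)).pe.mul h4).mul
    ((((PP.const 1000).pe.mul h5).mul h6).add ((PP.const 4).mul PP.k).pe))

lemma one_le_HH (ρ k r : ℕ) : 1 ≤ HH ρ k r := by
  unfold HH
  have : 0 < 100 * (r + 2) ^ 2 * 2 ^ r * (1000 * (sg ρ k r * k * sg ρ k r ^ sg ρ k r + 10) *
    (4 * (sg ρ k r).factorial + 8 * k + 12) + 4 * k) := by positivity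
  omega

lemma needW_le (ρ r k c : ℕ) : needW ρ r k c ≤ HH ρ k r * (c + 1) := by
  unfold needW lam hgt HH sg
  set σ := (ρ + 2) ^ 4 * k with hσ
  set M := 1000 * (σ * k * σ ^ σ + 10) with hM
  set φ := σ.factorial with hφ
  have h1 : 4 * φ + 4 * (c + k) + 8 + 4 * k + 4 ≤ (4 * φ + 8 * k + 12) * (c + 1) := by nlinarith
  have h2 : M * (4 * φ + 4 * (c + k) + 8 + 4 * k + 4) + 4 * k ≤
      (M * (4 * φ + 8 * k + 12) + 4 * k) * (c + 1) := by
    have := Nat.mul_le_mul_left M h1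
    nlinarith
  calc 100 * (r + 2) ^ 2 * 2 ^ r * (M * (4 * φ + 4 * (c + k) + 8 + 4 * k + 4) + 4 * k)
      ≤ 100 * (r + 2) ^ 2 * 2 ^ r * ((M * (4 * φ + 8 * k + 12) + 4 * k) * (c + 1)) :=
        Nat.mul_le_mul_left _ h2
    _ = _ := by ring

/-- the scales -/
def sc (H : ℕ) : ℕ → ℕ
  | 0 => 0
  | i + 1 => H * (sc H i + 1)

lemma sc_mono {H : ℕ} (hH : 1 ≤ H) : Monotone (sc H) := by
  refine monotone_nat_of_le_succ fun i => ?_
  show sc H i ≤ H * (sc H i + 1)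
  nlinarith

lemma fin_eq {Q : Type} [Group Q] (B : Lb.{0, 0} Q) (l : List B.L) :
    ∀ x : Q, B.fin x l = x * H87.wd B.q l := by
  induction l with
  | nil => intro x; simp [Lb.fin, H87.wd]
  | cons g l ih =>
    intro x
    show B.fin (x * B.q g) l = _
    rw [ih]
    simp [H87.wd, mul_assoc]

/-- SCALE. -/
theorem scaleS : ScaleS := by
  obtain ⟨c₁, hc₁⟩ := pe_HH
  obtain ⟨c₂, hc₂⟩ := H87.scale_of_pow.{0, 0} c₁ 8
  -- the size of `W`
  have hWpe : PE (fun ρ k r => (ρ + 2) ^ 20 * k ^ 10 * ((2 * HH ρ k r) ^ ((ρ + 1) ^ 8 + 2)) ^ 2) := by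
    have h0 : PE HH := ⟨c₁, hc₁⟩
    have h1 : PE (fun ρ k r => (2 * HH ρ k r) ^ ((ρ + 1) ^ 8 + 2)) :=
      ((PP.const 2).pe.mul h0).pow (((PP.ρ.add (PP.const 1)).pow 8).add (PP.const 2))
    exact (((PP.ρ.add (PP.const 2)).pow 20).mul (PP.k.pow 10)).pe.mul (h1.pow (PP.const 2))
  obtain ⟨c₃, hc₃⟩ := hWpe
  refine ⟨max c₂ (c₃ + 1), ?_⟩
  intro Q _ _ B k r P hfin hk hgen hP hPk hPZ hPQ hPbig
  have hft : Fintype B.L := Fintype.ofFinite B.L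
  set ρ := Nat.card B.L with hρ
  have hρ' : Fintype.card B.L = ρ := by rw [hρ, Nat.card_eq_fintype_card]
  set x := k + ρ + r + 1 with hx
  have hx2 : 2 ≤ x := by omega
  set H := HH ρ k r with hH
  have hH1 : 1 ≤ H := one_le_HH ρ k r
  have hle : ρ ≤ x ^ 2 := by nlinarith
  have hP2 : 2 ^ x ^ c₂ ≤ P := (Nat.pow_le_pow_right (by norm_num)
    (Nat.pow_le_pow_right (by omega) (le_max_left _ _))).trans hPbig
  obtain ⟨a, ha, i, hi, hsep⟩ := hc₂ Q B.L B.q P x H (sc H) hP hPZ hPQ hgen hx2 (by rw [hρ']; exact hle) hH1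
    (hc₁ ρ k r hk) hP2 (sc_mono hH1) (Nat.zero_le _) (fun i => le_rfl)
  refine ⟨a, ha, fun D hD hDn => ?_⟩
  have hcop : (Nat.card D).Coprime P := by
    refine Nat.Coprime.coprime_dvd_left hD ?_
    exact ((hP.coprime_iff_not_dvd).2 hPk).symm
  obtain ⟨hs1, hs2⟩ := hsep D hcop
  have key : ∀ (y : Q) (j : ℤ), (B.q a ^ j)⁻¹ * y ∈ D → ∃ d ∈ D, y = d * B.q a ^ j := by
    intro y j h
    refine ⟨B.q a ^ j * ((B.q a ^ j)⁻¹ * y) * (B.q a ^ j)⁻¹, hDn.conj_mem _ h _, ?_⟩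
    group
  have hWle : sc H (i + 1) ≤ sc H ((Fintype.card B.L + 1) ^ 8 + 1) := sc_mono hH1 (by omega)
  refine ⟨sc H i, sc H (i + 1), ?_, ?_, ?_, ?_, ?_⟩
  · -- Sink
    intro b j hj1 hj2 hmem
    obtain ⟨d, hd, he⟩ := key _ _ hmem
    refine hs1 [b] (by simp) j (by push_cast; omega) (hj2.trans (by exact_mod_cast hWle)) d hd ?_
    simpa [H87.wd] using he
  · -- Sep
    intro l j hl hj1 hj2 hmem
    obtain ⟨d, hd, he⟩ := key _ _ hmem
    refine hs2 l hl j hj1 hj2 d hd ?_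
    rw [← he, fin_eq, one_mul]
  · -- Lev
    intro j hj0 hj hmem
    rcases lt_or_ge 1 |j| with h1 | h1
    · refine hs1 [] (by simp) j (by push_cast; omega) (hj.trans (by exact_mod_cast hWle))
        (B.q a ^ j)⁻¹ (D.inv_mem hmem) ?_
      simp [H87.wd]
    · have h2 : B.q a ∈ D := by
        have h3 : 0 < |j| := abs_pos.2 hj0
        rcases abs_choice j with h4 | h4
        · have : j = 1 := by omega
          subst this
          simpa using hmem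
        · have : j = -1 := by omega
          subst this
          have := D.inv_mem hmem
          simpa using this
      have h3 : orderOf (B.q a) ∣ Nat.card D := by
        have := orderOf_dvd_natCard (⟨B.q a, h2⟩ : D)
        rwa [Subgroup.orderOf_mk] at this
      have h4 : P ∣ Nat.gcd (Nat.card D) P := Nat.dvd_gcd (ha.trans h3) dvd_rfl
      rw [hcop] at h4
      exact hP.one_lt.ne' (Nat.dvd_one.1 h4)
  · exact needW_le ρ r k (sc H i)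
  · -- size
    have h1 := H87.scale_seq hH1 (s := sc H) (Nat.zero_le _) (fun i => le_rfl) (i + 1)
    have h2 : sc H (i + 1) ≤ (2 * H) ^ ((ρ + 1) ^ 8 + 2) := by
      refine h1.trans (Nat.pow_le_pow_right (by omega) ?_)
      rw [hρ'] at hi
      omega
    calc (ρ + 2) ^ 20 * k ^ 10 * sc H (i + 1) ^ 2
        ≤ (ρ + 2) ^ 20 * k ^ 10 * ((2 * H) ^ ((ρ + 1) ^ 8 + 2)) ^ 2 :=
          Nat.mul_le_mul_left _ (Nat.pow_le_pow_left h2 2)
      _ ≤ 2 ^ (x ^ c₃) := hc₃ ρ k r hk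
      _ < 2 ^ (x ^ (max c₂ (c₃ + 1))) := by
          refine Nat.pow_lt_pow_right (by norm_num) ?_
          have h3 := dbl hx2 c₃
          have h4 : 1 ≤ x ^ c₃ := Nat.one_le_pow _ _ (by omega)
          have h5 : x ^ (c₃ + 1) ≤ x ^ (max c₂ (c₃ + 1)) :=
            Nat.pow_le_pow_right (by omega) (le_max_right _ _)
          omega
      _ ≤ P := hPbig

end Pool.Agent.Lib.MP_688fd0_co.SQ2.H41
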