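import Mathlib

/-!
Orders with a cut: definitions.
-/

set_option autoImplicit false

namespace Pool.Agent.Lib.MP_688fd0_co.SQ2

/-- `n = k * m`, `m` squarefree and prime to `k`, all primes of `m` are larger than `4 * k` and than
the number `Ω(n)` of prime factors of `n`; no prime of `m` divides
`q - 1` for a prime factor `q` of `n`; for a prime `p` of `m` the only divisor of `n` with prime factors smaller than
`p` which is `1` modulo `p` is `1`. -/
structure CutD (n k m : ℕ) : Prop where
  eq : n = k * m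
  cop : k.Coprime m
  sq : Squarefree m
  big : ∀ p ∈ m.primeFactors, 4 * k < p
  om : ∀ p ∈ m.primeFactors, n.primeFactorsList.length < p
  act : ∀ p ∈ m.primeFactors, ∀ q ∈ n.primeFactors, ¬ p ∣ q - 1
  syl : ∀ p ∈ m.primeFactors, ∀ d, d ∣ n → d ≡ 1 [MOD p] → (∀ q ∈ d.primeFactors, q < p) → d = 1

/-- An integer with a cut and a large prime factor on which no prime factor acts. -/
def Nice (c n : ℕ) : Prop :=
  ∃ k m, CutD n k m ∧ ∃ P ∈ m.primeFactors, (∀ q ∈ n.primeFactors, ¬ q ∣ P - 1) ∧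
    2 ^ ((k + n.primeFactorsList.length) ^ c) ≤ P

open Classical in
/-- NICE: almost all odd integers are nice. -/
def NiceS : Prop :=
  ∀ (c : ℕ) (ε : ℝ), 0 < ε → ∃ x₀ : ℕ, ∀ x ≥ x₀,
    (((Finset.Icc 1 x).filter (fun n => Odd n ∧ ¬ Nice c n)).card : ℝ) ≤ ε * x

end Pool.Agent.Lib.MP_688fd0_co.SQ2
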