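import Pool.Agent.Lib.MP_688fd0_co.OSF.H38.Ord3

/-!
Almost all odd integers have a large prime factor `P` on which no prime factor acts.
-/

set_option autoImplicit false

namespace Pool.Agent.Lib.MP_688fd0_co.SQ2.H41

open Finset Filter
open Pool.Agent.Lib.MP_ba0fa5_ag.AA (primesIn MertapStmt RecgStmt BtsumStmt)
open Pool.Agent.Lib.MP_688fd0_co.OSF.H38 (ell harm_le card_mult mem_primesIn upp upq low mert turan bad1 bad4 bad5)

/-- `n` has a prime factor `P ≥ W` such that no prime factor of `n` divides `P - 1`. -/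
def HasP (W n : ℕ) : Prop := ∃ P ∈ n.primeFactors,
  (∀ q ∈ n.primeFactors, ¬ q ∣ P - 1) ∧ W ≤ P

open scoped Classical in
theorem hasP_of (hM : MertapStmt) (hR : RecgStmt) (hB : BtsumStmt) (ε : ℝ) (hε : 0 < ε) :
    ∃ J ℓ₀ : ℕ, ∀ x W : ℕ, ℓ₀ ≤ ell x → ell x ^ 5 ≤ W → W ^ 2 ^ J ≤ x →
      (((Icc 1 x).filter (fun n => Odd n ∧ ¬ HasP W n)).card : ℝ) ≤ ε * x := by
  classical
  obtain ⟨C, hC0, hC⟩ := upq hB
  set δ : ℝ := ε / 3 with hδ
  have hδ0 : 0 < δ := by positivity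
  obtain ⟨z₀, hz₀⟩ := exists_nat_ge (4 * C / δ)
  set z : ℕ := z₀ + 2 with hz
  set M : ℕ := ∏ p ∈ (Icc 3 z).filter Nat.Prime, p with hMdef
  have hM1 : 1 ≤ M := Finset.one_le_prod' fun p hp => (mem_filter.mp hp).2.pos
  have hφ : (0 : ℝ) < M.totient := by exact_mod_cast Nat.totient_pos.mpr hM1
  obtain ⟨J₀, hJ₀⟩ := exists_nat_ge (24 * M.totient / δ)
  set J : ℕ := J₀ + 1 with hJ
  obtain ⟨W₀, hW₀⟩ := low hM hR M hM1 J (by omega)
  obtain ⟨ℓ₀, hℓ₀⟩ := exists_nat_ge (1 / δ)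
  refine ⟨J, max (max 3 (M ^ 2)) (max W₀ ℓ₀), fun x W hall hWℓ5 hWx => ?_⟩
  set ℓ : ℕ := ell x with hℓ
  have hℓ3 : 3 ≤ ℓ := ((le_max_left _ _).trans (le_max_left _ _)).trans hall
  have hℓM : M ^ 2 ≤ ℓ := ((le_max_right _ _).trans (le_max_left _ _)).trans hall
  have hℓW : W₀ ≤ ℓ := ((le_max_left _ _).trans (le_max_right _ _)).trans hall
  have hℓℓ : ℓ₀ ≤ ℓ := ((le_max_right _ _).trans (le_max_right _ _)).trans hall
  have hℓr0 : (0 : ℝ) < ℓ := by exact_mod_cast (by omega : 0 < ℓ)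
  have hℓδ : 1 / δ ≤ ℓ := hℓ₀.trans (by exact_mod_cast hℓℓ)
  have hinv : 1 / (ℓ : ℝ) ≤ δ := by
    rw [div_le_iff₀ hℓr0]
    rw [div_le_iff₀ hδ0] at hℓδ
    linarith
  set Y : ℕ := ℓ ^ 2 with hY
  have hY1 : 1 ≤ Y := Nat.one_le_pow _ _ (by omega)
  have hYW : Y ≤ W := (Nat.pow_le_pow_right (by omega) (by omega)).trans hWℓ5
  have hWℓ : ℓ ≤ W := (Nat.le_self_pow (by omega) ℓ).trans hWℓ5
  have hW3 : 3 ≤ W := hℓ3.trans hWℓ
  have hYM : (Y * M) ^ 2 ≤ W := by
    calc (Y * M) ^ 2 = ℓ ^ 4 * M ^ 2 := by rw [hY]; ring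
      _ ≤ ℓ ^ 4 * ℓ := Nat.mul_le_mul_left _ hℓM
      _ = ℓ ^ 5 := by ring
      _ ≤ W := hWℓ5
  have hWlex : W ≤ x := (Nat.le_self_pow (by positivity) W).trans hWx
  have hx1 : 1 ≤ x := by omega
  have hx0 : (0 : ℝ) < x := by exact_mod_cast hx1
  set S := (primesIn W (W ^ 2 ^ J)).filter (fun p => p ≡ M - 1 [MOD M]) with hS
  have hSp : ∀ p ∈ S, p.Prime := fun p hp => (mem_primesIn.mp (mem_filter.mp hp).1).2
  have hScard : S.card ≤ x := by
    have h1 : S ⊆ Ioc 0 x := by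
      intro p hp
      have h2 := mem_primesIn.mp (mem_filter.mp hp).1
      rw [mem_Ioc]
      exact ⟨h2.2.pos, h2.1.2.trans hWx⟩
    simpa using Finset.card_le_card h1
  have hJr : (0 : ℝ) < J := by exact_mod_cast (by omega : 0 < J)
  set μ : ℝ := (J : ℝ) / (2 * M.totient) with hμ
  have hμ0 : 0 < μ := by positivity
  have hlow : μ ≤ ∑ p ∈ S, (1 : ℝ) / p := hW₀ W (hℓW.trans hWℓ)
  -- the exceptional sets
  set E1 := (Ioc 0 x).filter fun n => ∃ q ∈ n.primeFactors, ∃ p ∈ n.primeFactors,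
      Y < q ∧ q ∣ p - 1 with hE1
  set E4 := (Ioc 0 x).filter fun n => ((S.filter (fun p => p ∣ n)).card : ℝ) ≤ μ / 2 with hE4
  set E5 := (Ioc 0 x).filter fun n => μ / 2 ≤
      (((S.filter (fun p => p ∣ n)).filter
        (fun p => ∃ q ∈ primesIn z Y, q ∣ n ∧ q ∣ p - 1)).card : ℝ) with hE5
  have hYr : (Y : ℝ) = (ℓ : ℝ) ^ 2 := by rw [hY]; push_cast; ring
  have c1 : (E1.card : ℝ) ≤ δ * x := by
    refine (bad1 x Y (by omega)).trans ?_
    rw [hYr, ← hℓ]
    have : (x : ℝ) * ℓ / (ℓ : ℝ) ^ 2 = (1 / ℓ) * x := by field_simp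
    rw [this]
    exact mul_le_mul_of_nonneg_right hinv hx0.le
  have c4 : (E4.card : ℝ) ≤ δ * x := by
    refine (bad4 x S hSp hScard μ hμ0 hlow).trans ?_
    have h1 : 24 * (M.totient : ℝ) ≤ δ * J := by
      rw [div_le_iff₀ hδ0] at hJ₀
      have : (J : ℝ) = J₀ + 1 := by rw [hJ]; push_cast; ring
      rw [this]
      nlinarith
    rw [div_le_iff₀ hμ0, hμ]
    have h2 : δ * x * ((J : ℝ) / (2 * M.totient)) = (δ * J) * (x / (2 * M.totient)) := by ring
    rw [h2]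
    have h3 : 12 * (x : ℝ) = (24 * M.totient) * (x / (2 * M.totient)) := by
      field_simp
      norm_num
    rw [h3]
    exact mul_le_mul_of_nonneg_right h1 (by positivity)
  have c5 : (E5.card : ℝ) ≤ δ * x := by
    have hMz : ∀ l : ℕ, l.Prime → l ∣ M → l ≤ z := by
      intro l hl hlM
      rw [hMdef, Prime.dvd_finsetProd_iff hl.prime] at hlM
      obtain ⟨p, hp, hlp⟩ := hlM
      rw [mem_filter, mem_Icc] at hp
      have := (Nat.prime_dvd_prime_iff_eq hl hp.2).mp hlp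
      omega
    have h1 := hC M z Y W J hM1 (by omega) hW3 hMz hYM
    refine (bad5 x S (primesIn z Y) hSp (fun q hq => (mem_primesIn.mp hq).2)
      (C * J / (M.totient * z)) (μ / 2) (by positivity) h1).trans ?_
    have hzr : (0 : ℝ) < z := by exact_mod_cast (by omega : 0 < z)
    have h2 : 4 * C ≤ δ * z := by
      rw [div_le_iff₀ hδ0] at hz₀
      have : (z : ℝ) = z₀ + 2 := by rw [hz]; push_cast; ring
      rw [this]
      nlinarith
    have h3 : x * (C * J / (M.totient * z)) / (μ / 2) = x * (4 * C / z) := by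
      rw [hμ]
      field_simp
      norm_num
    rw [h3, mul_comm δ]
    refine mul_le_mul_of_nonneg_left ?_ hx0.le
    rw [div_le_iff₀ hzr]
    exact h2
  -- inclusion
  have hsub : (Icc 1 x).filter (fun n => Odd n ∧ ¬ HasP W n) ⊆ E1 ∪ (E4 ∪ E5) := by
    intro n hn
    rw [mem_filter, mem_Icc] at hn
    obtain ⟨⟨hn1, hnx⟩, hodd, hnf⟩ := hn
    have hnI : n ∈ Ioc 0 x := by rw [mem_Ioc]; omega
    by_contra hcon
    rw [mem_union, mem_union] at hcon
    push Not at hcon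
    obtain ⟨n1, n4, n5⟩ := hcon
    rw [hE1, mem_filter] at n1
    rw [hE4, mem_filter] at n4
    rw [hE5, mem_filter] at n5
    have m1 : ∀ q ∈ n.primeFactors, ∀ p ∈ n.primeFactors, q ∣ p - 1 → q ≤ Y := by
      intro q hq p hp h
      by_contra h'
      exact n1 ⟨hnI, q, hq, p, hp, by omega, h⟩
    have m4 : μ / 2 < ((S.filter (fun p => p ∣ n)).card : ℝ) := by
      by_contra h'
      exact n4 ⟨hnI, by linarith⟩
    have m5 : (((S.filter (fun p => p ∣ n)).filter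
        (fun p => ∃ q ∈ primesIn z Y, q ∣ n ∧ q ∣ p - 1)).card : ℝ) < μ / 2 := by
      by_contra h'
      exact n5 ⟨hnI, by linarith⟩
    -- the prime P
    have hex : ∃ P ∈ S.filter (fun p => p ∣ n),
        ¬ ∃ q ∈ primesIn z Y, q ∣ n ∧ q ∣ P - 1 := by
      by_contra h
      push Not at h
      have : (S.filter (fun p => p ∣ n)).filter
        (fun p => ∃ q ∈ primesIn z Y, q ∣ n ∧ q ∣ p - 1) = S.filter (fun p => p ∣ n) := by
        rw [Finset.filter_eq_self]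
        exact h
      rw [this] at m5
      linarith
    obtain ⟨P, hP, hPq⟩ := hex
    rw [mem_filter] at hP
    obtain ⟨hPS, hPn⟩ := hP
    have hPp := hSp P hPS
    have hPS' := hPS
    rw [hS, mem_filter, mem_primesIn] at hPS'
    obtain ⟨⟨⟨hWP, _⟩, _⟩, hPM⟩ := hPS'
    have hPf : P ∈ n.primeFactors := Nat.mem_primeFactors.mpr ⟨hPp, hPn, by omega⟩
    refine hnf ⟨P, hPf, fun q hq => fun h => ?_, hWP.le⟩
    have hqp := Nat.prime_of_mem_primeFactors hq
    have hqn := Nat.dvd_of_mem_primeFactors hq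
    have hqY := m1 q hq P hPf h
    rcases Nat.lt_or_ge z q with h1 | h1
    · exact hPq ⟨q, mem_primesIn.mpr ⟨⟨h1, hqY⟩, hqp⟩, hqn, h⟩
    · have hq2 : q ≠ 2 := by
        rintro rfl
        have := Nat.odd_iff.mp hodd
        omega
      have hq3 : 3 ≤ q := by
        have := hqp.two_le
        omega
      have hqM : q ∣ M := Finset.dvd_prod_of_mem (fun p => p)
        (mem_filter.mpr ⟨mem_Icc.mpr ⟨hq3, h1⟩, hqp⟩)
      have h2 : P ≡ M - 1 [MOD q] := hPM.of_dvd hqM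
      have h3 : P + 1 ≡ M - 1 + 1 [MOD q] := h2.add_right 1
      have h4 : M - 1 + 1 = M := by omega
      rw [h4] at h3
      have h5 : q ∣ P + 1 := (Nat.modEq_zero_iff_dvd).mp
        (h3.trans ((Nat.modEq_zero_iff_dvd).mpr hqM))
      have h6 : q ∣ (P + 1) - (P - 1) := Nat.dvd_sub h5 h
      have h7 : (P + 1) - (P - 1) = 2 := by
        have := hPp.two_le
        omega
      rw [h7] at h6
      have := Nat.le_of_dvd (by norm_num) h6
      omega
  have hcard := Finset.card_le_card hsub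
  have hcard2 : (E1 ∪ (E4 ∪ E5)).card ≤ E1.card + (E4.card + E5.card) := by
    refine (Finset.card_union_le _ _).trans (Nat.add_le_add_left ?_ _)
    exact Finset.card_union_le _ _
  have hfin : (((Icc 1 x).filter (fun n => Odd n ∧ ¬ HasP W n)).card : ℝ) ≤
      E1.card + (E4.card + (E5.card : ℝ)) := by
    exact_mod_cast hcard.trans hcard2
  have hεδ : ε = 3 * δ := by rw [hδ]; ring
  rw [hεδ]
  linarith

end Pool.Agent.Lib.MP_688fd0_co.SQ2.H41
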