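import Pool.Agent.Lib.MP_688fd0_co.SQ2.H41.CutA
import Pool.Agent.Lib.MP_688fd0_co.SQ2.H41.DenP

/-!
An integer outside the exceptional sets is nice.
-/

set_option autoImplicit false

namespace Pool.Agent.Lib.MP_688fd0_co.SQ2.H41

open Finset

theorem nice_of {c n V T J₁ L W : ℕ} (hn : n ≠ 0) (hV4 : 4 ≤ V)
    (h1 : ∀ p ∈ n.primeFactors, V < p → ¬ p ^ 2 ∣ n)
    (h2 : ∀ q ∈ n.primeFactors, ∀ p ∈ n.primeFactors, V < q → ¬ q ∣ p - 1)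
    (h4 : ∀ p ∈ n.primeFactors, V < p → ∀ d, d ∣ n → d ≡ 1 [MOD p] → (∀ q ∈ d.primeFactors, q < p) →
      d = 1)
    (h5 : Sm n V ≤ V ^ T) (h6 : cnt n V (V ^ 2 ^ (5 * J₁)) ≤ 4 * J₁) (hT : T + 1 ≤ 2 ^ J₁)
    (hΩ : n.primeFactorsList.length ≤ 3 * L) (hL : 3 * L ≤ V) (hP : HasP W n)
    (hW : 2 ^ ((V ^ 2 ^ (5 * J₁) + 3 * L) ^ c) ≤ W) (hW' : V ^ 2 ^ (5 * J₁) ≤ W) : Nice c n := by
  set Z : ℕ := V ^ 2 ^ (5 * J₁) with hZdef
  have hVZ : V ≤ Z := Nat.le_self_pow (by positivity) V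
  have hB : 4 * Sm n V ≤ V ^ (T + 1) := by
    calc 4 * Sm n V ≤ V * V ^ T := Nat.mul_le_mul hV4 h5
      _ = V ^ (T + 1) := by rw [pow_succ]; ring
  have hBZ : (V ^ (T + 1)) ^ 2 ^ cnt n V Z ≤ Z := by
    rw [← pow_mul, hZdef]
    refine Nat.pow_le_pow_right (by omega) ?_
    calc (T + 1) * 2 ^ cnt n V (V ^ 2 ^ (5 * J₁)) ≤ 2 ^ J₁ * 2 ^ (4 * J₁) :=
          Nat.mul_le_mul hT (Nat.pow_le_pow_right (by norm_num) h6)
      _ = 2 ^ (5 * J₁) := by rw [← pow_add]; ring_nf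
  obtain ⟨y, hVy, hyZ, hy1, hy2⟩ := exists_cut hVZ h1 hB hBZ
  have hkZ : 4 * Sm n y ≤ Z := hy2.trans hBZ
  set k := Sm n y with hk
  set m := Ro n y with hm
  have hkm : k * m = n := Sm_mul_Ro hn y
  have hkpos : 0 < k := Sm_pos n y
  have hmem : ∀ p ∈ m.primeFactors, p ∈ n.primeFactors ∧ V < p ∧ 4 * k < p := by
    intro p hp
    obtain ⟨h3, h4'⟩ := mem_primeFactors_Ro hn hp
    exact ⟨h3, by omega, hy1 p h3 h4'⟩
  obtain ⟨P, hPn, hPq, hWP⟩ := hP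
  refine ⟨k, m, ⟨hkm.symm, coprime_Sm_Ro hn y, squarefree_Ro hn (fun p hp h => h1 p hp (by omega)),
    fun p hp => (hmem p hp).2.2, fun p hp => ?_, fun p hp q hq => ?_, fun p hp => ?_⟩, P, ?_, hPq, ?_⟩
  · have := (hmem p hp).2.1
    omega
  · exact h2 p (hmem p hp).1 q hq (hmem p hp).2.1
  · exact h4 p (hmem p hp).1 (hmem p hp).2.1
  · have hPp := Nat.prime_of_mem_primeFactors hPn
    have hd : P ∣ k * m := by rw [hkm]; exact Nat.dvd_of_mem_primeFactors hPn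
    have hPm : P ∣ m := by
      refine (hPp.dvd_mul.1 hd).resolve_left fun h => ?_
      have := Nat.le_of_dvd hkpos h
      omega
    exact Nat.mem_primeFactors.2 ⟨hPp, hPm, (Ro_pos n y).ne'⟩
  · refine le_trans ?_ (hW.trans hWP)
    refine Nat.pow_le_pow_right (by norm_num) (Nat.pow_le_pow_left ?_ c)
    omega

end Pool.Agent.Lib.MP_688fd0_co.SQ2.H41
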