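import Pool.Agent.Lib.MP_688fd0_co.SQ2.H41.StrB
import Pool.Agent.Lib.MP_688fd0_co.SQ2.Iface

/-!
GNS: the groups of nice order have the structure `GN`.
-/

set_option autoImplicit false

namespace Pool.Agent.Lib.MP_688fd0_co.SQ2.H41

open Subgroup
open scoped commutatorElement

/-- The structure, from a central element of order `P`. -/
theorem gn_of {G : Type*} [Group G] [Finite G] {k m P : ℕ} (hG : Nat.card G = k * m) (hD : CutD (k * m) k m)
    (hP : P ∈ m.primeFactors) (hPc : P ∣ Nat.card (center G)) : ∃ N C : Subgroup G, GN N C k P := by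
  have hm0 : m ≠ 0 := hD.sq.ne_zero
  have hG0 : Nat.card G ≠ 0 := Nat.card_pos.ne'
  have hk0 : k ≠ 0 := by rintro rfl; simp at hG; exact hG0 hG
  have hn0 : k * m ≠ 0 := Nat.mul_ne_zero hk0 hm0
  obtain ⟨N, hNn, hNc, hNcard⟩ := exists_normal_cyclic m k G hG hD.sq
    (fun p hp q hq => by
      have h1 := hD.big p hp
      have h2 := Nat.le_of_dvd (Nat.pos_of_ne_zero hk0) (Nat.dvd_of_mem_primeFactors hq)
      omega) hD.act hD.syl
  set C : Subgroup G := ⁅N, (⊤ : Subgroup G)⁆ with hC
  have hCn : C.Normal := inferInstance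
  have hCN : C ≤ N := Subgroup.commutator_le_left N ⊤
  have hNindex : N.index = k := by
    have h2 := N.card_mul_index
    rw [hNcard, hG] at h2
    have : m * N.index = m * k := by rw [h2]; ring
    exact Nat.eq_of_mul_eq_mul_left (Nat.pos_of_ne_zero hm0) this
  have hCd : Nat.card C ∣ m := by rw [← hNcard]; exact Subgroup.card_dvd_of_le hCN
  obtain ⟨m', hm'⟩ := hCd
  have hCsq : Squarefree (Nat.card C) := hD.sq.squarefree_of_dvd ⟨m', hm'⟩
  have hcopm : (Nat.card C).Coprime m' := by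
    have := hD.sq
    rw [hm'] at this
    exact Nat.coprime_of_squarefree_mul this
  have hCindex : C.index = k * m' := by
    have h1 := C.card_mul_index
    rw [hG, hm'] at h1
    have h2 : Nat.card C * C.index = Nat.card C * (k * m') := by rw [h1]; ring
    exact Nat.eq_of_mul_eq_mul_left Nat.card_pos h2
  have hcopk : (Nat.card C).Coprime k := (Nat.Coprime.coprime_dvd_right ⟨m', hm'⟩ hD.cop).symm
  -- the key fact
  have key : ∀ p ∈ m.primeFactors, (∃ y ∈ N, orderOf y = p ∧ y ∈ center G) → ¬ p ∣ Nat.card C := by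
    rintro p hp ⟨y, hy, hyp, hyc⟩ hpC
    have hpp := Nat.prime_of_mem_primeFactors hp
    have : Fact p.Prime := ⟨hpp⟩
    obtain ⟨r, hr⟩ := Nat.dvd_of_mem_primeFactors hp
    have h1 := pow_eq_one N hNc (p := p) (m' := r) (by rw [hNcard, hr])
      (pow_central N hNc hy hyp hyc)
    obtain ⟨c, hc⟩ := exists_prime_orderOf_dvd_card' (G := C) p hpC
    have h2 := h1 (c : G) c.2
    have h3 : p ∣ r := by
      rw [← hc, ← Subgroup.orderOf_coe]
      exact orderOf_dvd_of_pow_eq_one h2
    have h4 : p * p ∣ m := by rw [hr]; exact Nat.mul_dvd_mul_left p h3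
    exact hpp.one_lt.ne' (Nat.isUnit_iff.1 (hD.sq p h4))
  have hCcen : C ⊓ center G = ⊥ := by
    rw [eq_bot_iff]
    intro x hx
    rw [Subgroup.mem_bot]
    by_contra hne
    have hx1 : orderOf x ≠ 1 := fun h => hne (orderOf_eq_one_iff.1 h)
    obtain ⟨p, hpp, hpd⟩ := Nat.exists_prime_and_dvd hx1
    obtain ⟨s, hs⟩ := hpd
    have hox : orderOf x ∣ Nat.card C := by
      have := orderOf_dvd_natCard (⟨x, hx.1⟩ : C)
      rwa [Subgroup.orderOf_mk] at this
    have hpC : p ∣ Nat.card C := (Dvd.intro s hs.symm).trans hox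
    have hs0 : s ≠ 0 := by
      rintro rfl
      have := orderOf_pos x
      omega
    have hpm : p ∈ m.primeFactors := Nat.mem_primeFactors.2 ⟨hpp, hpC.trans ⟨m', hm'⟩, hm0⟩
    refine key p hpm ⟨x ^ s, N.pow_mem (hCN hx.1) s, ?_, (center G).pow_mem hx.2 s⟩ hpC
    rw [orderOf_pow_of_dvd hs0 ⟨p, by rw [hs, mul_comm]⟩, hs]
    exact Nat.mul_div_cancel _ (Nat.pos_of_ne_zero hs0)
  -- the prime P
  have hPp := Nat.prime_of_mem_primeFactors hP
  have hPfact : Fact P.Prime := ⟨hPp⟩
  have hPC : ¬ P ∣ Nat.card C := by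
    obtain ⟨z, hz⟩ := exists_prime_orderOf_dvd_card' (G := center G) P hPc
    have hzo : orderOf (z : G) = P := by rw [Subgroup.orderOf_coe, hz]
    refine key P hP ⟨(z : G), ?_, hzo, z.2⟩
    -- the element lies in N
    have h1 : orderOf (QuotientGroup.mk' N (z : G)) ∣ P := by
      rw [← hzo]; exact orderOf_map_dvd _ _
    have h2 : orderOf (QuotientGroup.mk' N (z : G)) ∣ k := by
      rw [← hNindex]; exact orderOf_dvd_natCard _
    have hPk : ¬ P ∣ k := by
      intro h
      have h3 : P ∣ Nat.gcd k m := Nat.dvd_gcd h (Nat.dvd_of_mem_primeFactors hP)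
      rw [hD.cop] at h3
      exact hPp.one_lt.ne' (Nat.dvd_one.1 h3)
    have h3 : orderOf (QuotientGroup.mk' N (z : G)) = 1 := by
      rcases (Nat.dvd_prime hPp).1 h1 with h | h
      · exact h
      · rw [h] at h2; exact absurd h2 hPk
    rw [orderOf_eq_one_iff] at h3
    exact (QuotientGroup.eq_one_iff (z : G)).1 h3
  refine ⟨N, C, ⟨hNn, hNc, hCN, hCn, ?_, hNindex, ?_, hCsq, ?_, ?_, hPp, ?_, hPC, ?_, ?_⟩⟩
  · intro n hn g
    have h1 : ⁅n, g⁆ ∈ C := Subgroup.commutator_mem_commutator hn (Subgroup.mem_top g)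
    rwa [commutatorElement_def] at h1
  · rw [hNcard]; exact hD.cop.symm
  · rw [hCindex]; exact Nat.Coprime.mul_right hcopk hcopm
  · intro c hc h
    have h1 : c ∈ C ⊓ center G := ⟨hc, Subgroup.mem_center_iff.2 fun g => (h g).symm⟩
    rw [hCcen] at h1
    exact Subgroup.mem_bot.1 h1
  · rw [hNcard]; exact Nat.dvd_of_mem_primeFactors hP
  · rw [hNcard]
    intro h
    rw [sq] at h
    exact hPp.one_lt.ne' (Nat.isUnit_iff.1 (hD.sq P h))
  · intro p hp
    have hpm : p ∈ m.primeFactors := Nat.primeFactors_mono ⟨m', hm'⟩ hm0 hp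
    refine ⟨hD.big p hpm, hD.act P hP p ?_⟩
    exact Nat.primeFactors_mono (Nat.dvd_mul_left m k) hn0 hpm

/-- If no prime factor of the order divides `P - 1`, the centre has order divisible by `P`. -/
theorem dvd_center {G : Type*} [Group G] [Finite G] {k m P : ℕ} (hG : Nat.card G = k * m) (hD : CutD (k * m) k m)
    (hP : P ∈ m.primeFactors) (hPq : ∀ q ∈ (k * m).primeFactors, ¬ q ∣ P - 1) : P ∣ Nat.card (center G) := by
  have hm0 : m ≠ 0 := hD.sq.ne_zero
  have hk0 : k ≠ 0 := by rintro rfl; rw [zero_mul] at hG; exact Nat.card_pos.ne' hG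
  obtain ⟨N, hNn, hNc, hNcard⟩ := exists_normal_cyclic m k G hG hD.sq
    (fun p hp q hq => by
      have h1 := hD.big p hp
      have h2 := Nat.le_of_dvd (Nat.pos_of_ne_zero hk0) (Nat.dvd_of_mem_primeFactors hq)
      omega) hD.act hD.syl
  have hPp := Nat.prime_of_mem_primeFactors hP
  have hPfact : Fact P.Prime := ⟨hPp⟩
  have hPN : P ∣ Nat.card N := by rw [hNcard]; exact Nat.dvd_of_mem_primeFactors hP
  obtain ⟨y, hy⟩ := exists_prime_orderOf_dvd_card' (G := N) P hPN
  have hyo : orderOf (y : G) = P := by rw [Subgroup.orderOf_coe, hy]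
  have hnorm : (zpowers (y : G)).Normal := by
    let _ : CommGroup N := { (inferInstance : Group N) with
      mul_comm := fun a b => by
        obtain ⟨g, hg⟩ := hNc.exists_generator
        obtain ⟨i, rfl⟩ := Subgroup.mem_zpowers_iff.1 (hg a)
        obtain ⟨j, rfl⟩ := Subgroup.mem_zpowers_iff.1 (hg b)
        rw [← zpow_add, ← zpow_add, add_comm] }
    have hk : Nat.card (powMonoidHom P : N →* N).ker = P := by
      rw [IsCyclic.card_powMonoidHom_ker]
      exact Nat.gcd_eq_right hPN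
    have hle : zpowers y ≤ (powMonoidHom P : N →* N).ker := by
      rw [Subgroup.zpowers_le, MonoidHom.mem_ker, powMonoidHom_apply]
      rw [← hy]; exact pow_orderOf_eq_one y
    have heq : zpowers y = (powMonoidHom P : N →* N).ker := by
      refine Subgroup.eq_of_le_of_card_ge hle ?_
      rw [hk, Nat.card_zpowers, hy]
    refine ⟨fun x hx g => ?_⟩
    have hxN : x ∈ N := by
      obtain ⟨i, rfl⟩ := Subgroup.mem_zpowers_iff.1 hx
      exact N.zpow_mem y.2 i
    have hxP : x ^ P = 1 := by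
      obtain ⟨i, rfl⟩ := Subgroup.mem_zpowers_iff.1 hx
      rw [← zpow_natCast, ← zpow_mul, mul_comm, zpow_mul, zpow_natCast, ← hyo,
        pow_orderOf_eq_one, one_zpow]
    have hcN : g * x * g⁻¹ ∈ N := hNn.conj_mem x hxN g
    have hmem : (⟨g * x * g⁻¹, hcN⟩ : N) ∈ (powMonoidHom P : N →* N).ker := by
      rw [MonoidHom.mem_ker, powMonoidHom_apply]
      apply Subtype.ext
      simp only [Subgroup.coe_pow, Subgroup.coe_one]
      rw [conj_pow, hxP]; group
    rw [← heq] at hmem
    obtain ⟨i, hi⟩ := Subgroup.mem_zpowers_iff.1 hmem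
    rw [Subgroup.mem_zpowers_iff]
    refine ⟨i, ?_⟩
    have := congrArg (fun z : N => (z : G)) hi
    simpa using this
  have hle := prime_central (G := G) hPp (zpowers (y : G)) (by rw [Nat.card_zpowers, hyo])
    (by rw [hG]; exact hPq)
  rw [← hyo, ← Nat.card_zpowers]
  exact Subgroup.card_dvd_of_le hle

/-- GNS. -/
theorem gns : GNS := by
  intro G _ _ k m P hD hG hP hPq
  exact gn_of hG hD hP (dvd_center hG hD hP hPq)

end Pool.Agent.Lib.MP_688fd0_co.SQ2.H41
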