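import Pool.Agent.Lib.MP_688fd0_co.SQ2.H41.StrB

/-!
Groups whose order has a cut and whose centre has a large prime factor.
-/

set_option autoImplicit false

namespace Pool.Agent.Lib.MP_688fd0_co.SQ2.H41

open Subgroup
open scoped commutatorElement

variable {G : Type*} [Group G] [Finite G]

theorem strc {k m : ℕ} (hG : Nat.card G = k * m) (hD : CutD (k * m) k m) {P : ℕ} (hP : P ∈ m.primeFactors)
    (hPc : P ∣ Nat.card (center G)) :
    ∃ C : Subgroup G, ∃ _ : C.Normal, IsCyclic C ∧ Squarefree (Nat.card C) ∧ (Nat.card C).Coprime C.index ∧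
      C ⊓ center G = ⊥ ∧ (∀ p ∈ (Nat.card C).primeFactors, 4 * k < p ∧ ¬ P ∣ p - 1) ∧
      ∃ Z : Subgroup (G ⧸ C), Z ≤ center (G ⧸ C) ∧ IsCyclic Z ∧ Squarefree (Nat.card Z) ∧
        (Nat.card Z).Coprime k ∧ Z.index = k ∧ P ∣ Nat.card Z := by
  have hm0 : m ≠ 0 := hD.sq.ne_zero
  have hG0 : Nat.card G ≠ 0 := Nat.card_pos.ne'
  have hk0 : k ≠ 0 := by rintro rfl; simp at hG; exact hG0 hG
  have hn0 : k * m ≠ 0 := Nat.mul_ne_zero hk0 hm0
  obtain ⟨N, hNn, hNc, hNcard⟩ := exists_normal_cyclic m k G hG hD.sq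
    (fun p hp q hq => by
      have h1 := hD.big p hp
      have h2 := Nat.le_of_dvd (Nat.pos_of_ne_zero hk0) (Nat.dvd_of_mem_primeFactors hq)
      omega) hD.act hD.syl
  set C : Subgroup G := ⁅N, (⊤ : Subgroup G)⁆ with hC
  have hCn : C.Normal := inferInstance
  have hCN : C ≤ N := Subgroup.commutator_le_left N ⊤
  have hNindex : N.index = k := by
    have h2 := N.card_mul_index
    rw [hNcard, hG] at h2
    have : m * N.index = m * k := by rw [h2]; ring
    exact Nat.eq_of_mul_eq_mul_left (Nat.pos_of_ne_zero hm0) this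
  have hCd : Nat.card C ∣ m := by rw [← hNcard]; exact Subgroup.card_dvd_of_le hCN
  obtain ⟨m', hm'⟩ := hCd
  have hCsq : Squarefree (Nat.card C) := hD.sq.squarefree_of_dvd ⟨m', hm'⟩
  have hcopm : (Nat.card C).Coprime m' := by
    have := hD.sq
    rw [hm'] at this
    exact Nat.coprime_of_squarefree_mul this
  have hCindex : C.index = k * m' := by
    have h1 := C.card_mul_index
    rw [hG, hm'] at h1
    have h2 : Nat.card C * C.index = Nat.card C * (k * m') := by rw [h1]; ring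
    exact Nat.eq_of_mul_eq_mul_left Nat.card_pos h2
  have hcopk : (Nat.card C).Coprime k := (Nat.Coprime.coprime_dvd_right ⟨m', hm'⟩ hD.cop).symm
  -- the key fact
  have key : ∀ p ∈ m.primeFactors, (∃ y ∈ N, orderOf y = p ∧ y ∈ center G) → ¬ p ∣ Nat.card C := by
    rintro p hp ⟨y, hy, hyp, hyc⟩ hpC
    have hpp := Nat.prime_of_mem_primeFactors hp
    have : Fact p.Prime := ⟨hpp⟩
    obtain ⟨r, hr⟩ := Nat.dvd_of_mem_primeFactors hp
    have h1 := pow_eq_one N hNc (p := p) (m' := r) (by rw [hNcard, hr])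
      (pow_central N hNc hy hyp hyc)
    obtain ⟨c, hc⟩ := exists_prime_orderOf_dvd_card' (G := C) p hpC
    have h2 := h1 (c : G) c.2
    have h3 : p ∣ r := by
      rw [← hc, ← Subgroup.orderOf_coe]
      exact orderOf_dvd_of_pow_eq_one h2
    have h4 : p * p ∣ m := by rw [hr]; exact Nat.mul_dvd_mul_left p h3
    exact hpp.one_lt.ne' (Nat.isUnit_iff.1 (hD.sq p h4))
  have hCcen : C ⊓ center G = ⊥ := by
    rw [eq_bot_iff]
    intro x hx
    rw [Subgroup.mem_bot]
    by_contra hne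
    have hx1 : orderOf x ≠ 1 := fun h => hne (orderOf_eq_one_iff.1 h)
    obtain ⟨p, hpp, hpd⟩ := Nat.exists_prime_and_dvd hx1
    obtain ⟨s, hs⟩ := hpd
    have hox : orderOf x ∣ Nat.card C := by
      have := orderOf_dvd_natCard (⟨x, hx.1⟩ : C)
      rwa [Subgroup.orderOf_mk] at this
    have hpC : p ∣ Nat.card C := (Dvd.intro s hs.symm).trans hox
    have hs0 : s ≠ 0 := by
      rintro rfl
      have := orderOf_pos x
      omega
    have hpm : p ∈ m.primeFactors := Nat.mem_primeFactors.2 ⟨hpp, hpC.trans ⟨m', hm'⟩, hm0⟩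
    refine key p hpm ⟨x ^ s, N.pow_mem (hCN hx.1) s, ?_, (center G).pow_mem hx.2 s⟩ hpC
    rw [orderOf_pow_of_dvd hs0 ⟨p, by rw [hs, mul_comm]⟩, hs]
    exact Nat.mul_div_cancel _ (Nat.pos_of_ne_zero hs0)
  -- the prime P
  have hPp := Nat.prime_of_mem_primeFactors hP
  have hPfact : Fact P.Prime := ⟨hPp⟩
  have hPC : ¬ P ∣ Nat.card C := by
    obtain ⟨z, hz⟩ := exists_prime_orderOf_dvd_card' (G := center G) P hPc
    have hzo : orderOf (z : G) = P := by rw [Subgroup.orderOf_coe, hz]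
    refine key P hP ⟨(z : G), ?_, hzo, z.2⟩
    -- the element lies in N
    have h1 : orderOf (QuotientGroup.mk' N (z : G)) ∣ P := by
      rw [← hzo]; exact orderOf_map_dvd _ _
    have h2 : orderOf (QuotientGroup.mk' N (z : G)) ∣ k := by
      rw [← hNindex]; exact orderOf_dvd_natCard _
    have hPk : ¬ P ∣ k := by
      intro h
      have h3 : P ∣ Nat.gcd k m := Nat.dvd_gcd h (Nat.dvd_of_mem_primeFactors hP)
      rw [hD.cop] at h3
      exact hPp.one_lt.ne' (Nat.dvd_one.1 h3)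
    have h3 : orderOf (QuotientGroup.mk' N (z : G)) = 1 := by
      rcases (Nat.dvd_prime hPp).1 h1 with h | h
      · exact h
      · rw [h] at h2; exact absurd h2 hPk
    rw [orderOf_eq_one_iff] at h3
    exact (QuotientGroup.eq_one_iff (z : G)).1 h3
  -- the quotient
  set f := QuotientGroup.mk' C with hf
  have hfs : Function.Surjective f := QuotientGroup.mk'_surjective C
  set Z : Subgroup (G ⧸ C) := N.map f with hZ
  have hZindex : Z.index = k := by
    have h1 : (Z.comap f).index = Z.index := Subgroup.index_comap_of_surjective Z hfs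
    have h2 : Z.comap f = N := by
      rw [hZ, Subgroup.comap_map_eq, hf, QuotientGroup.ker_mk', sup_eq_left]
      exact hCN
    rw [← h1, h2, hNindex]
  have hZcard : Nat.card Z = m' := by
    have h1 := Z.card_mul_index
    have h2 : Nat.card (G ⧸ C) = k * m' := hCindex
    rw [hZindex, h2] at h1
    have : Nat.card Z * k = m' * k := by rw [h1]; ring
    exact Nat.eq_of_mul_eq_mul_right (Nat.pos_of_ne_zero hk0) this
  have hm'd : m' ∣ m := ⟨Nat.card C, by rw [hm', mul_comm]⟩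
  refine ⟨C, hCn, Subgroup.isCyclic_of_le hCN, hCsq, ?_, hCcen, ?_, Z, ?_, ?_, ?_, ?_, hZindex, ?_⟩
  · rw [hCindex]; exact Nat.Coprime.mul_right hcopk hcopm
  · intro p hp
    have hpm : p ∈ m.primeFactors := Nat.primeFactors_mono ⟨m', hm'⟩ hm0 hp
    refine ⟨hD.big p hpm, hD.act P hP p ?_⟩
    exact Nat.primeFactors_mono (Nat.dvd_mul_left m k) hn0 hpm
  · rintro _ ⟨n, hn, rfl⟩
    rw [Subgroup.mem_center_iff]
    intro q
    obtain ⟨g, rfl⟩ := hfs q
    rw [← map_mul, ← map_mul]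
    rw [hf, QuotientGroup.mk'_apply, QuotientGroup.mk'_apply, QuotientGroup.eq]
    have h1 : ⁅n⁻¹, g⁻¹⁆ ∈ C := Subgroup.commutator_mem_commutator (N.inv_mem hn) (Subgroup.mem_top _)
    have h2 : (g * n)⁻¹ * (n * g) = ⁅n⁻¹, g⁻¹⁆ := by rw [commutatorElement_def]; group
    rw [h2]; exact h1
  · exact isCyclic_of_surjective _ (f.subgroupMap_surjective N)
  · rw [hZcard]; exact hD.sq.squarefree_of_dvd hm'd
  · rw [hZcard]; exact (Nat.Coprime.coprime_dvd_right hm'd hD.cop).symm
  · rw [hZcard]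
    have h1 : P ∣ Nat.card C * m' := by rw [← hm']; exact Nat.dvd_of_mem_primeFactors hP
    exact (hPp.dvd_mul.1 h1).resolve_left hPC

end Pool.Agent.Lib.MP_688fd0_co.SQ2.H41
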