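import Pool.Agent.Lib.MP_688fd0_co.SQ2.H41.Den2
import Pool.Agent.Lib.MP_688fd0_co.SQ2.H41.StrC

/-!
A group of order `n` acts by `± 1` on a normal subgroup of order `P` if `P ≡ 3 mod 4` and no odd prime factor of `n`
divides `P - 1`.
-/

set_option autoImplicit false

namespace Pool.Agent.Lib.MP_688fd0_co.SQ2.H41

open Subgroup

theorem dvd_two_of {o P : ℕ} (h1 : ∀ q, q.Prime → q ∣ o → q = 2) (h2 : ¬ 4 ∣ P) (h3 : o ∣ P) (h0 : P ≠ 0) :
    o ∣ 2 := by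
  have ho : o ≠ 0 := by rintro rfl; exact h0 (Nat.eq_zero_of_zero_dvd h3)
  have h4 : o = 2 ^ o.primeFactorsList.length :=
    Nat.eq_prime_pow_of_unique_prime_dvd ho fun {q} hq hqd => h1 q hq hqd
  rcases Nat.lt_or_ge o.primeFactorsList.length 2 with h | h
  · rw [h4]
    calc 2 ^ o.primeFactorsList.length ∣ 2 ^ 1 := Nat.pow_dvd_pow 2 (by omega)
      _ = 2 := by norm_num
  · exfalso
    apply h2
    have h5 : 4 ∣ o := by
      rw [h4]
      calc 4 = 2 ^ 2 := by norm_num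
        _ ∣ _ := Nat.pow_dvd_pow 2 h
    exact h5.trans h3

/-- The action on a normal subgroup of order `P` is by `± 1`. -/
theorem act_pm {G : Type*} [Group G] [Finite G] {P : ℕ} (hP : P.Prime) (Y : Subgroup G) (hYn : Y.Normal)
    (hY : Nat.card Y = P) (h : ∀ q ∈ (Nat.card G).primeFactors, q ∣ P - 1 → q = 2) (h4 : ¬ 4 ∣ P - 1) (g : G) :
    (∀ y ∈ Y, g * y * g⁻¹ = y) ∨ (∀ y ∈ Y, g * y * g⁻¹ = y⁻¹) := by
  have : Fact P.Prime := ⟨hP⟩
  have hcyc : IsCyclic Y := isCyclic_of_prime_card hY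
  have hc : Nat.card (MulAut Y) = P - 1 := by
    rw [IsCyclic.card_mulAut, hY, Nat.totient_prime hP]
  have hP1 : P - 1 ≠ 0 := by have := hP.two_le; omega
  have hd1 : orderOf (MulAut.conjNormal (H := Y) g) ∣ Nat.card G :=
    (orderOf_map_dvd _ g).trans (orderOf_dvd_natCard g)
  have hd2 : orderOf (MulAut.conjNormal (H := Y) g) ∣ P - 1 := by
    rw [← hc]; exact orderOf_dvd_natCard _
  have hd : orderOf (MulAut.conjNormal (H := Y) g) ∣ 2 :=
    dvd_two_of (fun q hq hqo => h q (Nat.mem_primeFactors.2 ⟨hq, hqo.trans hd1, Nat.card_pos.ne'⟩)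
      (hqo.trans hd2)) h4 hd2 hP1
  have hsq : ∀ y ∈ Y, g * (g * y * g⁻¹) * g⁻¹ = y := by
    intro y hy
    have h1 : (MulAut.conjNormal (H := Y) g) ^ 2 = 1 := orderOf_dvd_iff_pow_eq_one.1 hd
    have h3 := congrArg (fun f : MulAut Y => ((f ⟨y, hy⟩ : Y) : G)) h1
    simpa [pow_two] using h3
  obtain ⟨γ, hγ⟩ := IsCyclic.exists_generator (α := Y)
  have hgen : ∀ y ∈ Y, ∃ i : ℤ, y = (γ : G) ^ i := by
    intro y hy
    obtain ⟨i, hi⟩ := Subgroup.mem_zpowers_iff.1 (hγ ⟨y, hy⟩)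
    exact ⟨i, by rw [← Subgroup.coe_zpow, hi]⟩
  have hoγ : orderOf (γ : G) = P := by
    rw [Subgroup.orderOf_coe, ← hY, ← Nat.card_zpowers, (Subgroup.eq_top_iff' _).2 hγ, Subgroup.card_top]
  obtain ⟨j, hj⟩ := hgen _ (hYn.conj_mem (γ : G) γ.2 g)
  have hpow : ∀ i : ℤ, g * (γ : G) ^ i * g⁻¹ = ((γ : G) ^ i) ^ j := by
    intro i
    rw [← conj_zpow, hj, ← zpow_mul, ← zpow_mul, mul_comm]
  have h5 := hsq (γ : G) γ.2
  have h6 : (γ : G) ^ (j * j - 1) = 1 := by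
    rw [hj, hpow j, ← zpow_mul] at h5
    rw [zpow_sub, h5, zpow_one, mul_inv_cancel]
  rw [← orderOf_dvd_iff_zpow_eq_one, hoγ] at h6
  have h7 : (P : ℤ) ∣ (j - 1) * (j + 1) := by
    have : (j - 1) * (j + 1) = j * j - 1 := by ring
    rw [this]; exact h6
  have hPZ : Prime (P : ℤ) := Nat.prime_iff_prime_int.1 hP
  rcases hPZ.dvd_or_dvd h7 with h8 | h8
  · left
    intro y hy
    obtain ⟨i, rfl⟩ := hgen y hy
    rw [hpow i]
    have h9 : ((γ : G) ^ i) ^ (j - 1) = 1 := by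
      rw [← zpow_mul, mul_comm, zpow_mul]
      have : (γ : G) ^ (j - 1) = 1 := by rw [← orderOf_dvd_iff_zpow_eq_one, hoγ]; exact h8
      rw [this, one_zpow]
    have : ((γ : G) ^ i) ^ j = ((γ : G) ^ i) ^ (j - 1) * (γ : G) ^ i := by
      rw [← zpow_add_one]; congr 1; ring
    rw [this, h9, one_mul]
  · right
    intro y hy
    obtain ⟨i, rfl⟩ := hgen y hy
    rw [hpow i]
    have h9 : ((γ : G) ^ i) ^ (j + 1) = 1 := by
      rw [← zpow_mul, mul_comm, zpow_mul]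
      have : (γ : G) ^ (j + 1) = 1 := by rw [← orderOf_dvd_iff_zpow_eq_one, hoγ]; exact h8
      rw [this, one_zpow]
    rw [zpow_add_one] at h9
    exact eq_inv_of_mul_eq_one_left h9

end Pool.Agent.Lib.MP_688fd0_co.SQ2.H41
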