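import Pool.Agent.Lib.MP_688fd0_co.SQ2.H41.Gnq
import Pool.Agent.Lib.MP_688fd0_co.SQ2.H41.StrD
import Pool.Agent.Lib.MP_688fd0_co.SQ2.H41.Gns

/-!
The structure of a group of nice order relative to a prime `P` with action `± 1` (any parity).
-/

set_option autoImplicit false

namespace Pool.Agent.Lib.MP_688fd0_co.SQ2.H41

open Subgroup

/-- `N` cyclic normal, `C ≤ N` normal, every `g` acts on `N / C` by `ε g`. -/
structure GNE {G : Type*} [Group G] (N C : Subgroup G) (ε : G →* ℤˣ) (k P : ℕ) : Prop where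
  Nn : N.Normal
  Nc : IsCyclic N
  Nsq : Squarefree (Nat.card N)
  CN : C ≤ N
  Cn : C.Normal
  act : ∀ n ∈ N, ∀ g : G, g * n * g⁻¹ * (n ^ ((ε g : ℤˣ) : ℤ))⁻¹ ∈ C
  eN : ∀ n ∈ N, ε n = 1
  idx : N.index = k
  cop : (Nat.card N).Coprime k
  Ccop : (Nat.card C).Coprime C.index
  /-- no element of `C` has the action `ε` -/
  nact : ∀ c ∈ C, (∀ g : G, g * c * g⁻¹ = c ^ ((ε g : ℤˣ) : ℤ)) → c = 1
  prime : P.Prime
  dvd : P ∣ Nat.card N
  ndvd : ¬ P ∣ Nat.card C
  sq : ¬ P ^ 2 ∣ Nat.card G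
  big : ∀ p ∈ (Nat.card N).primeFactors, 4 * k < p ∧ ∀ q ∈ (Nat.card G).primeFactors, ¬ p ∣ q - 1

theorem zpow_unit {G : Type*} [Group G] (e : ℤˣ) (x : G) : x ^ ((e : ℤˣ) : ℤ) = 1 ↔ x = 1 := by
  rcases Int.units_eq_one_or e with h | h <;> simp [h]

theorem comm_of_cyclic {G : Type*} [Group G] (N : Subgroup G) (hNc : IsCyclic N) :
    ∀ x ∈ N, ∀ y ∈ N, x * y = y * x := by
  intro x hx y hy
  obtain ⟨γ, hγ⟩ := IsCyclic.exists_generator (α := N)
  obtain ⟨i, hi⟩ := Subgroup.mem_zpowers_iff.1 (hγ ⟨x, hx⟩)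
  obtain ⟨j, hj⟩ := Subgroup.mem_zpowers_iff.1 (hγ ⟨y, hy⟩)
  have h1 : (⟨x, hx⟩ : N) * ⟨y, hy⟩ = ⟨y, hy⟩ * ⟨x, hx⟩ := by
    rw [← hi, ← hj, ← zpow_add, ← zpow_add, add_comm]
  exact congrArg (fun y : N => (y : G)) h1

/-- The relative commutators. -/
def relc {G : Type*} [Group G] (N : Subgroup G) (ε : G →* ℤˣ) : Subgroup G :=
  closure {x | ∃ n ∈ N, ∃ g : G, x = g * n * g⁻¹ * (n ^ ((ε g : ℤˣ) : ℤ))⁻¹}

theorem relc_le {G : Type*} [Group G] (N : Subgroup G) (hNn : N.Normal) (ε : G →* ℤˣ) : relc N ε ≤ N := by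
  rw [relc, Subgroup.closure_le]
  rintro x ⟨n, hn, g, rfl⟩
  exact N.mul_mem (hNn.conj_mem n hn g) (N.inv_mem (N.zpow_mem hn _))

/-- If an element of prime order `p` has the action `ε`, `p` does not divide the order of `relc`. -/
theorem relc_key {G : Type*} [Group G] [Finite G] (N : Subgroup G) (hNn : N.Normal) (hNc : IsCyclic N)
    (hsq : Squarefree (Nat.card N)) (ε : G →* ℤˣ) {p : ℕ} (hp : p.Prime) {y : G} (hy : y ∈ N) (hyp : orderOf y = p)
    (hact : ∀ g : G, g * y * g⁻¹ = y ^ ((ε g : ℤˣ) : ℤ)) : ¬ p ∣ Nat.card (relc N ε) := by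
  have hpN : p ∣ Nat.card N := by
    have := orderOf_dvd_natCard (⟨y, hy⟩ : N)
    rwa [Subgroup.orderOf_mk, hyp] at this
  obtain ⟨r, hr⟩ := hpN
  have hpr : ¬ p ∣ r := by
    intro h
    have : p * p ∣ Nat.card N := by rw [hr]; exact Nat.mul_dvd_mul_left p h
    exact hp.one_lt.ne' (Nat.isUnit_iff.1 (hsq p this))
  have hcomm := comm_of_cyclic N hNc
  -- all elements are killed by `r`
  have hkill : ∀ x ∈ relc N ε, x ^ r = 1 := by
    intro x hx
    refine (Subgroup.closure_induction (p := fun x _ => x ∈ N ∧ x ^ r = 1) ?_ ⟨N.one_mem, one_pow r⟩ ?_ ?_ hx).2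
    · rintro x ⟨n, hn, g, rfl⟩
      have h1 : g * n * g⁻¹ ∈ N := hNn.conj_mem n hn g
      have h2 : (n ^ ((ε g : ℤˣ) : ℤ))⁻¹ ∈ N := N.inv_mem (N.zpow_mem hn _)
      refine ⟨N.mul_mem h1 h2, ?_⟩
      have h3 : n ^ r ∈ zpowers y := by
        refine mem_zpowers_of_pow N hNc hy (N.pow_mem hn r) ?_
        rw [hyp, ← pow_mul, mul_comm, ← hr]
        have := pow_card_eq_one' (x := (⟨n, hn⟩ : N))
        exact congrArg (fun y : N => (y : G)) this
      obtain ⟨i, hi⟩ := Subgroup.mem_zpowers_iff.1 h3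
      have h4 : Commute (g * n * g⁻¹) ((n ^ ((ε g : ℤˣ) : ℤ))⁻¹) := hcomm _ h1 _ h2
      have h5 : (n ^ ((ε g : ℤˣ) : ℤ)) ^ r = (y ^ i) ^ ((ε g : ℤˣ) : ℤ) := by
        rw [hi, ← zpow_natCast (n ^ _) r, ← zpow_natCast n r, ← zpow_mul, ← zpow_mul, mul_comm]
      have h6 : g * n ^ r * g⁻¹ = (y ^ i) ^ ((ε g : ℤˣ) : ℤ) := by
        rw [← hi, ← conj_zpow, hact g, ← zpow_mul, ← zpow_mul, mul_comm]
      rw [h4.mul_pow, conj_pow, h6, inv_pow, h5, mul_inv_cancel]
    · rintro x z _ _ ⟨hx, hx'⟩ ⟨hz, hz'⟩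
      refine ⟨N.mul_mem hx hz, ?_⟩
      rw [(show Commute x z from hcomm _ hx _ hz).mul_pow, hx', hz', mul_one]
    · rintro x _ ⟨hx, hx'⟩
      exact ⟨N.inv_mem hx, by rw [inv_pow, hx', inv_one]⟩
  intro hpd
  have : Fact p.Prime := ⟨hp⟩
  obtain ⟨c, hc⟩ := exists_prime_orderOf_dvd_card' (G := relc N ε) p hpd
  have h2 := hkill (c : G) c.2
  apply hpr
  rw [← hc, ← Subgroup.orderOf_coe]
  exact orderOf_dvd_of_pow_eq_one h2

/-- The structure from a character `ε` with which `G` acts on an element of order `P`. -/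
theorem gne_of {G : Type*} [Group G] [Finite G] {k m P : ℕ} (hG : Nat.card G = k * m) (hD : CutD (k * m) k m)
    (hP : P ∈ m.primeFactors) (ε : G →* ℤˣ) {y : G} (hy : orderOf y = P)
    (hact : ∀ g : G, g * y * g⁻¹ = y ^ ((ε g : ℤˣ) : ℤ)) : ∃ N C : Subgroup G, y ∈ N ∧ GNE N C ε k P := by
  have hm0 : m ≠ 0 := hD.sq.ne_zero
  have hG0 : Nat.card G ≠ 0 := Nat.card_pos.ne'
  have hk0 : k ≠ 0 := by rintro rfl; simp at hG; exact hG0 hG
  have hn0 : k * m ≠ 0 := Nat.mul_ne_zero hk0 hm0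
  obtain ⟨N, hNn, hNc, hNcard⟩ := exists_normal_cyclic m k G hG hD.sq
    (fun p hp q hq => by
      have h1 := hD.big p hp
      have h2 := Nat.le_of_dvd (Nat.pos_of_ne_zero hk0) (Nat.dvd_of_mem_primeFactors hq)
      omega) hD.act hD.syl
  have hPp := Nat.prime_of_mem_primeFactors hP
  have hNindex : N.index = k := by
    have h2 := N.card_mul_index
    rw [hNcard, hG] at h2
    have : m * N.index = m * k := by rw [h2]; ring
    exact Nat.eq_of_mul_eq_mul_left (Nat.pos_of_ne_zero hm0) this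
  have hPk : ¬ P ∣ k := by
    intro h
    have h3 : P ∣ Nat.gcd k m := Nat.dvd_gcd h (Nat.dvd_of_mem_primeFactors hP)
    rw [hD.cop] at h3
    exact hPp.one_lt.ne' (Nat.dvd_one.1 h3)
  have hyN : y ∈ N := by
    have h1 : orderOf (QuotientGroup.mk' N y) ∣ P := by
      rw [← hy]; exact orderOf_map_dvd _ _
    have h2 : orderOf (QuotientGroup.mk' N y) ∣ k := by
      rw [← hNindex]; exact orderOf_dvd_natCard _
    have h3 : orderOf (QuotientGroup.mk' N y) = 1 := by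
      rcases (Nat.dvd_prime hPp).1 h1 with h | h
      · exact h
      · rw [h] at h2; exact absurd h2 hPk
    rw [orderOf_eq_one_iff] at h3
    exact (QuotientGroup.eq_one_iff y).1 h3
  have hNsq : Squarefree (Nat.card N) := by rw [hNcard]; exact hD.sq
  have hcomm := comm_of_cyclic N hNc
  have hCN : relc N ε ≤ N := relc_le N hNn ε
  have hCn : (relc N ε).Normal := by
    refine ⟨fun x hx g => ?_⟩
    have h1 : (zpowers x).Normal := zpowers_normal N hNn hNc (hCN hx)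
    exact (Subgroup.zpowers_le.2 hx) (h1.conj_mem x (Subgroup.mem_zpowers x) g)
  have hCd : Nat.card (relc N ε) ∣ m := by rw [← hNcard]; exact Subgroup.card_dvd_of_le hCN
  obtain ⟨m', hm'⟩ := hCd
  have hcopm : (Nat.card (relc N ε)).Coprime m' := by
    have := hD.sq
    rw [hm'] at this
    exact Nat.coprime_of_squarefree_mul this
  have hCindex : (relc N ε).index = k * m' := by
    have h1 := (relc N ε).card_mul_index
    rw [hG] at h1
    have h2 : Nat.card (relc N ε) * (relc N ε).index = Nat.card (relc N ε) * (k * m') := by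
      rw [h1]; nth_rewrite 1 [hm']; ring
    exact Nat.eq_of_mul_eq_mul_left Nat.card_pos h2
  have hcopk : (Nat.card (relc N ε)).Coprime k := (Nat.Coprime.coprime_dvd_right ⟨m', hm'⟩ hD.cop).symm
  have hPC : ¬ P ∣ Nat.card (relc N ε) := relc_key N hNn hNc hNsq ε hPp hyN hy hact
  refine ⟨N, relc N ε, hyN, ⟨hNn, hNc, hNsq, hCN, hCn, ?_, ?_, hNindex, ?_, ?_, ?_, hPp, ?_, hPC, ?_, ?_⟩⟩
  · intro n hn g
    exact Subgroup.subset_closure ⟨n, hn, g, rfl⟩
  · intro n hn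
    have h1 : n * y * n⁻¹ = y := by rw [hcomm n hn y hyN]; group
    rw [hact n] at h1
    rcases Int.units_eq_one_or (ε n) with h | h
    · exact h
    · exfalso
      rw [h] at h1
      simp only [Units.val_neg, Units.val_one, zpow_neg, zpow_one] at h1
      have h2 : y ^ 2 = 1 := by
        rw [pow_two]
        nth_rewrite 1 [← h1]
        group
      have h3 := orderOf_dvd_of_pow_eq_one h2
      rw [hy] at h3
      have h4 := hD.big P hP
      have h5 := Nat.le_of_dvd (by norm_num) h3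
      omega
  · rw [hNcard]; exact hD.cop.symm
  · rw [hCindex]; exact Nat.Coprime.mul_right hcopk hcopm
  · intro c hc h
    by_contra hne
    have hx1 : orderOf c ≠ 1 := fun h => hne (orderOf_eq_one_iff.1 h)
    obtain ⟨p, hpp, hpd⟩ := Nat.exists_prime_and_dvd hx1
    obtain ⟨s, hs⟩ := hpd
    have hox : orderOf c ∣ Nat.card (relc N ε) := by
      have := orderOf_dvd_natCard (⟨c, hc⟩ : relc N ε)
      rwa [Subgroup.orderOf_mk] at this
    have hs0 : s ≠ 0 := by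
      rintro rfl
      have := orderOf_pos c
      omega
    have hpow : orderOf (c ^ s) = p := by
      rw [orderOf_pow_of_dvd hs0 ⟨p, by rw [hs, mul_comm]⟩, hs]
      exact Nat.mul_div_cancel _ (Nat.pos_of_ne_zero hs0)
    refine relc_key N hNn hNc hNsq ε hpp (N.pow_mem (hCN hc) s) hpow ?_ ((Dvd.intro s hs.symm).trans hox)
    intro g
    rw [← conj_pow, h g, ← zpow_natCast (c ^ _) s, ← zpow_natCast c s, ← zpow_mul, ← zpow_mul, mul_comm]
  · rw [hNcard]; exact Nat.dvd_of_mem_primeFactors hP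
  · rw [hG]
    intro h
    have h1 : (P ^ 2).Coprime k := Nat.Coprime.pow_left 2 ((Nat.Prime.coprime_iff_not_dvd hPp).2 hPk)
    have h2 : P ^ 2 ∣ m := h1.dvd_of_dvd_mul_left h
    rw [sq] at h2
    exact hPp.one_lt.ne' (Nat.isUnit_iff.1 (hD.sq P h2))
  · intro p hp
    rw [hNcard] at hp
    refine ⟨hD.big p hp, fun q hq => ?_⟩
    rw [hG] at hq
    exact hD.act p hp q hq

open Classical in
/-- The character, if every element centralises or inverts `y`. -/
theorem exists_eps {G : Type*} [Group G] {y : G} (hy : y ^ 2 ≠ 1)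
    (h : ∀ g : G, g * y * g⁻¹ = y ∨ g * y * g⁻¹ = y⁻¹) :
    ∃ ε : G →* ℤˣ, ∀ g : G, g * y * g⁻¹ = y ^ ((ε g : ℤˣ) : ℤ) := by
  have hne : y ≠ y⁻¹ := fun h1 => hy (by rw [pow_two]; nth_rewrite 1 [h1]; group)
  have hinv : ∀ g : G, g * y⁻¹ * g⁻¹ = (g * y * g⁻¹)⁻¹ := fun g => by group
  have hmul : ∀ g g' : G, g * g' * y * (g * g')⁻¹ = g * (g' * y * g'⁻¹) * g⁻¹ := fun g g' => by group
  refine ⟨⟨⟨fun g => if g * y * g⁻¹ = y then 1 else -1, by simp⟩, fun g g' => ?_⟩, fun g => ?_⟩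
  · simp only
    rw [hmul g g']
    rcases h g with h1 | h1 <;> rcases h g' with h2 | h2 <;> simp [h1, h2, hinv, hne.symm]
  · simp only [MonoidHom.coe_mk, OneHom.coe_mk]
    rcases h g with h1 | h1
    · simp [h1]
    · simp [h1, hne.symm]

/-- The structure, for an element `y` of order `P` that every element centralises or inverts. -/
theorem gne {G : Type*} [Group G] [Finite G] {k m P : ℕ} (hG : Nat.card G = k * m) (hD : CutD (k * m) k m)
    (hP : P ∈ m.primeFactors) {y : G} (hy : orderOf y = P) (h : ∀ g : G, g * y * g⁻¹ = y ∨ g * y * g⁻¹ = y⁻¹) :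
    ∃ (ε : G →* ℤˣ) (N C : Subgroup G), (∀ g : G, g * y * g⁻¹ = y ^ ((ε g : ℤˣ) : ℤ)) ∧ y ∈ N ∧ GNE N C ε k P := by
  have hy2 : y ^ 2 ≠ 1 := by
    intro h2
    have h3 := orderOf_dvd_of_pow_eq_one h2
    rw [hy] at h3
    have h4 := hD.big P hP
    have h5 := Nat.le_of_dvd (by norm_num) h3
    have hk0 : k ≠ 0 := by rintro rfl; rw [zero_mul] at hG; exact Nat.card_pos.ne' hG
    omega
  obtain ⟨ε, hε⟩ := exists_eps hy2 h
  obtain ⟨N, C, h1, h2⟩ := gne_of hG hD hP ε hy hε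
  exact ⟨ε, N, C, hε, h1, h2⟩

/-- Quotients by a cyclic subgroup of `C`. -/
theorem gne_map {G H : Type*} [Group G] [Finite G] [Group H] [Finite H] {N C : Subgroup G} {ε : G →* ℤˣ} {k P : ℕ}
    (h : GNE N C ε k P) {g : G} (hg : g ∈ C) (f : G →* H) (hfs : Function.Surjective f) (hker : f.ker = zpowers g)
    (ε' : H →* ℤˣ) (hε : ∀ x, ε' (f x) = ε x) : GNE (N.map f) (C.map f) ε' k P := by
  have hCN := h.CN
  have hgN : g ∈ N := hCN hg
  have hZC : zpowers g ≤ C := Subgroup.zpowers_le.2 hg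
  have hcommN := comm_of_cyclic N h.Nc
  have hNidx : (N.map f).index = N.index :=
    Subgroup.index_map_eq N hfs (by rw [hker]; exact hZC.trans hCN)
  have hCidx : (C.map f).index = C.index := Subgroup.index_map_eq C hfs (by rw [hker]; exact hZC)
  have hNd : Nat.card (N.map f) ∣ Nat.card N := Subgroup.card_map_dvd N f
  have hCd : Nat.card (C.map f) ∣ Nat.card C := Subgroup.card_map_dvd C f
  have hHd : Nat.card H ∣ Nat.card G := by
    have h1 := f.ker.card_mul_index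
    rw [Subgroup.index_ker, MonoidHom.range_eq_top.2 hfs, Subgroup.card_top] at h1
    exact ⟨_, by rw [← h1, mul_comm]⟩
  have hCsq : Squarefree (Nat.card C) := h.Nsq.squarefree_of_dvd (Subgroup.card_dvd_of_le hCN)
  have hNeq : Nat.card N = Nat.card (N.map f) * orderOf g := by
    have h1 := N.card_mul_index
    have h2 := (N.map f).card_mul_index
    have h3 := f.ker.card_mul_index
    have h5 : f.ker.index = Nat.card H := by
      rw [Subgroup.index_ker, MonoidHom.range_eq_top.2 hfs, Subgroup.card_top]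
    rw [h5, hker, Nat.card_zpowers] at h3
    rw [hNidx] at h2
    refine Nat.eq_of_mul_eq_mul_right (Nat.pos_of_ne_zero N.index_ne_zero_of_finite) ?_
    rw [h1, ← h3, ← h2, mul_comm (orderOf g), mul_right_comm]
  have hz : ∀ (e : ℤˣ) (x : G), f (x ^ ((e : ℤˣ) : ℤ)) = f x ^ ((e : ℤˣ) : ℤ) := fun e x => map_zpow f x _
  refine ⟨h.Nn.map f hfs, ?_, h.Nsq.squarefree_of_dvd hNd, Subgroup.map_mono hCN, h.Cn.map f hfs, ?_, ?_,
    hNidx.trans h.idx, ?_, ?_, ?_, h.prime, ?_, ?_, ?_, ?_⟩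
  · have hNc := h.Nc
    exact isCyclic_of_surjective (f.subgroupMap N) (f.subgroupMap_surjective N)
  · rintro n' ⟨n, hn, rfl⟩ g'
    obtain ⟨x, rfl⟩ := hfs g'
    refine ⟨_, h.act n hn x, ?_⟩
    rw [map_mul, map_mul, map_mul, map_inv, map_inv, hz, hε]
  · rintro n' ⟨n, hn, rfl⟩
    rw [hε]; exact h.eN n hn
  · exact h.cop.coprime_dvd_left hNd
  · rw [hCidx]; exact h.Ccop.coprime_dvd_left hCd
  · rintro c' ⟨c, hc, rfl⟩ hcc
    obtain ⟨m', hm'⟩ : orderOf g ∣ Nat.card C := by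
      have := orderOf_dvd_natCard (⟨g, hg⟩ : C)
      rwa [Subgroup.orderOf_mk] at this
    have hcop : (orderOf g).Coprime m' := by
      have := hCsq
      rw [hm'] at this
      exact Nat.coprime_of_squarefree_mul this
    have hy : (c ^ orderOf g) ^ m' = 1 := by
      rw [← pow_mul, ← hm']
      have := pow_card_eq_one' (x := (⟨c, hc⟩ : C))
      exact congrArg (fun y : C => (y : G)) this
    have hyC : c ^ orderOf g ∈ C := C.pow_mem hc _
    have hycen : ∀ x : G, x * c ^ orderOf g * x⁻¹ = (c ^ orderOf g) ^ ((ε x : ℤˣ) : ℤ) := by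
      intro x
      obtain ⟨y, hydef⟩ : ∃ y, y = c ^ orderOf g := ⟨_, rfl⟩
      rw [← hydef] at hy hyC ⊢
      have hxy : x * y * x⁻¹ ∈ C := h.Cn.conj_mem _ hyC x
      have hyz : (y ^ ((ε x : ℤˣ) : ℤ))⁻¹ ∈ C := C.inv_mem (C.zpow_mem hyC _)
      have hcm : Commute (x * y * x⁻¹) ((y ^ ((ε x : ℤˣ) : ℤ))⁻¹) := hcommN _ (hCN hxy) _ (hCN hyz)
      have e1 : (x * y * x⁻¹ * (y ^ ((ε x : ℤˣ) : ℤ))⁻¹) ^ m' = 1 := by
        rw [hcm.mul_pow, conj_pow, inv_pow, hy, ← zpow_natCast (y ^ _) m', ← zpow_mul, mul_comm _ (m' : ℤ),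
          zpow_mul, zpow_natCast, hy]
        simp
      have e2 : (x * y * x⁻¹ * (y ^ ((ε x : ℤˣ) : ℤ))⁻¹) ^ orderOf g = 1 := by
        have hmem : x * y * x⁻¹ * (y ^ ((ε x : ℤˣ) : ℤ))⁻¹ ∈ zpowers g := by
          rw [← hker, MonoidHom.mem_ker]
          have h5 : f x * f y * (f x)⁻¹ = f y ^ ((ε x : ℤˣ) : ℤ) := by
            rw [hydef, map_pow, ← conj_pow, hcc (f x), hε, ← zpow_natCast (f c ^ _), ← zpow_natCast (f c),
              ← zpow_mul, ← zpow_mul, mul_comm]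
          rw [map_mul, map_mul, map_mul, map_inv, map_inv, hz, h5, mul_inv_cancel]
        obtain ⟨i, hi⟩ := Subgroup.mem_zpowers_iff.1 hmem
        rw [← hi, ← zpow_natCast (g ^ i), ← zpow_mul, mul_comm, zpow_mul, zpow_natCast, pow_orderOf_eq_one, one_zpow]
      have e3 : orderOf (x * y * x⁻¹ * (y ^ ((ε x : ℤˣ) : ℤ))⁻¹) ∣ 1 := by
        rw [← hcop]
        exact Nat.dvd_gcd (orderOf_dvd_of_pow_eq_one e2) (orderOf_dvd_of_pow_eq_one e1)
      exact mul_inv_eq_one.1 (orderOf_eq_one_iff.1 (Nat.dvd_one.1 e3))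
    have hone := h.nact _ hyC hycen
    have hmem := mem_zpowers_of_pow N h.Nc hgN (hCN hc) hone
    rw [← MonoidHom.mem_ker, hker]
    exact hmem
  · have h1 := h.dvd
    rw [hNeq] at h1
    rcases (h.prime.dvd_mul).1 h1 with h2 | h2
    · exact h2
    · exfalso
      have h3 : orderOf g ∣ Nat.card C := by
        have := orderOf_dvd_natCard (⟨g, hg⟩ : C)
        rwa [Subgroup.orderOf_mk] at this
      exact h.ndvd (h2.trans h3)
  · exact fun h1 => h.ndvd (h1.trans hCd)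
  · exact fun h1 => h.sq (h1.trans hHd)
  · intro p hp
    refine ⟨(h.big p (Nat.primeFactors_mono hNd Nat.card_pos.ne' hp)).1, fun q hq => ?_⟩
    exact (h.big p (Nat.primeFactors_mono hNd Nat.card_pos.ne' hp)).2 q
      (Nat.primeFactors_mono hHd Nat.card_pos.ne' hq)

end Pool.Agent.Lib.MP_688fd0_co.SQ2.H41
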