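import Mathlib

/-!
Groups whose order has a squarefree part made of large primes: the normal cyclic subgroup.
-/

set_option autoImplicit false

namespace Pool.Agent.Lib.MP_688fd0_co.SQ2.H41

open Subgroup

/-- A normal subgroup of prime order `p` is central if no prime factor of the order of the group divides `p - 1`. -/
theorem prime_central {G : Type*} [Group G] [Finite G] {p : ℕ} (hp : p.Prime) (P : Subgroup G)
    [P.Normal] (hP : Nat.card P = p) (h : ∀ q ∈ (Nat.card G).primeFactors, ¬ q ∣ p - 1) :
    P ≤ center G := by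
  have : Fact p.Prime := ⟨hp⟩
  have hcyc : IsCyclic P := isCyclic_of_prime_card hP
  have hc : Nat.card (MulAut P) = p - 1 := by
    rw [IsCyclic.card_mulAut, hP, Nat.totient_prime hp]
  have hone : ∀ g : G, MulAut.conjNormal (H := P) g = 1 := by
    intro g
    have h1 : orderOf (MulAut.conjNormal (H := P) g) ∣ Nat.card G :=
      (orderOf_map_dvd _ g).trans (orderOf_dvd_natCard g)
    have h2 : orderOf (MulAut.conjNormal (H := P) g) ∣ p - 1 := by
      rw [← hc]; exact orderOf_dvd_natCard _
    rw [← orderOf_eq_one_iff]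
    by_contra hne
    obtain ⟨q, hq, hqd⟩ := Nat.exists_prime_and_dvd hne
    exact h q (Nat.mem_primeFactors.2 ⟨hq, hqd.trans h1, Nat.card_pos.ne'⟩) (hqd.trans h2)
  intro x hx
  rw [Subgroup.mem_center_iff]
  intro g
  have h3 := congrArg (fun f : MulAut P => ((f ⟨x, hx⟩ : P) : G)) (hone g)
  simp only [MulAut.conjNormal_apply, MulAut.one_apply] at h3
  rw [mul_inv_eq_iff_eq_mul] at h3
  exact h3

/-- A commutative group of squarefree order is cyclic. -/
theorem cyclic_of_squarefree {G : Type*} [Group G] [Finite G] (hc : ∀ a b : G, a * b = b * a)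
    (hsq : Squarefree (Nat.card G)) : IsCyclic G := by
  have := IsZGroup.of_squarefree hsq
  let _ : CommGroup G := { (inferInstance : Group G) with mul_comm := hc }
  infer_instance

/-- The normal cyclic subgroup. -/
theorem exists_normal_cyclic : ∀ (m : ℕ), ∀ (k : ℕ) (G : Type*) [Group G] [Finite G],
    Nat.card G = k * m → Squarefree m →
    (∀ p ∈ m.primeFactors, ∀ q ∈ k.primeFactors, q < p) →
    (∀ p ∈ m.primeFactors, ∀ q ∈ (k * m).primeFactors, ¬ p ∣ q - 1) →
    (∀ p ∈ m.primeFactors, ∀ d, d ∣ k * m → d ≡ 1 [MOD p] → (∀ q ∈ d.primeFactors, q < p) → d = 1) →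
    ∃ N : Subgroup G, N.Normal ∧ IsCyclic N ∧ Nat.card N = m := by
  intro m
  induction m using Nat.strong_induction_on with
  | _ m ih =>
  intro k G _ _ hG hsq hkm hact hsyl
  have hG0 : Nat.card G ≠ 0 := Nat.card_pos.ne'
  have hm0 : m ≠ 0 := hsq.ne_zero
  have hk0 : k ≠ 0 := by rintro rfl; simp at hG; exact hG0 hG
  rcases Nat.lt_or_ge m 2 with hm2 | hm2
  · have hm1 : m = 1 := by omega
    subst hm1
    exact ⟨⊥, inferInstance, inferInstance, by simp⟩
  -- the largest prime
  have hne : m.primeFactors.Nonempty := Nat.nonempty_primeFactors.2 (by omega)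
  set p := m.primeFactors.max' hne with hpdef
  have hpm : p ∈ m.primeFactors := Finset.max'_mem _ _
  have hpp : p.Prime := Nat.prime_of_mem_primeFactors hpm
  have hpd : p ∣ m := Nat.dvd_of_mem_primeFactors hpm
  have hmax : ∀ q ∈ (k * m).primeFactors, q ≤ p := by
    intro q hq
    rw [Nat.primeFactors_mul hk0 hm0, Finset.mem_union] at hq
    rcases hq with hq | hq
    · exact (hkm p hpm q hq).le
    · exact Finset.le_max' _ _ hq
  have hpk : ¬ p ∣ k := by
    intro h
    exact absurd (hkm p hpm p (Nat.mem_primeFactors.2 ⟨hpp, h, hk0⟩)) (lt_irrefl _)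
  obtain ⟨m', hm'⟩ := hpd
  have hpm' : ¬ p ∣ m' := by
    intro h
    have : p * p ∣ m := by rw [hm']; exact Nat.mul_dvd_mul_left p h
    exact hpp.one_lt.ne' (Nat.isUnit_iff.1 (hsq p this))
  have : Fact p.Prime := ⟨hpp⟩
  obtain ⟨P⟩ : Nonempty (Sylow p G) := inferInstance
  have hcs : Nat.card (Sylow p G) = 1 := by
    have h1 : Nat.card (Sylow p G) ∣ k * m := by
      rw [← hG]; exact (P.card_dvd_index).trans (P : Subgroup G).index_dvd_card
    have h2 := card_sylow_modEq_one p G
    refine hsyl p hpm _ h1 h2 ?_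
    intro q hq
    have hq1 : q ∈ (k * m).primeFactors := Nat.primeFactors_mono h1 (by positivity) hq
    refine lt_of_le_of_ne (hmax q hq1) ?_
    intro hqp
    have h3 : p ∣ Nat.card (Sylow p G) := by
      have := Nat.dvd_of_mem_primeFactors hq
      rwa [hqp] at this
    exact P.not_dvd_index (h3.trans P.card_dvd_index)
  have : Subsingleton (Sylow p G) := (Nat.card_eq_one_iff_unique.1 hcs).1
  have hPn : (P : Subgroup G).Normal := Sylow.normal_of_subsingleton P
  have hPcard : Nat.card (P : Subgroup G) = p := by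
    rw [P.card_eq_multiplicity, hG, hm']
    have h1 : (k * (p * m')).factorization p = 1 := by
      have hm'0 : m' ≠ 0 := by rintro rfl; exact hm0 (by simpa using hm')
      rw [Nat.factorization_mul hk0 (Nat.mul_ne_zero hpp.ne_zero hm'0),
        Nat.factorization_mul hpp.ne_zero hm'0]
      simp [hpp.factorization, Nat.factorization_eq_zero_of_not_dvd hpk,
        Nat.factorization_eq_zero_of_not_dvd hpm']
    rw [h1, pow_one]
  have hm'0 : m' ≠ 0 := by rintro rfl; exact hm0 (by simpa using hm')
  -- induction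
  have hm'lt : m' < m := by
    rw [hm']
    have := hpp.two_le
    have : 0 < m' := Nat.pos_of_ne_zero hm'0
    nlinarith
  have hdvd : m' ∣ m := ⟨p, by rw [hm', mul_comm]⟩
  have hcardQ : Nat.card (G ⧸ (P : Subgroup G)) = k * m' := by
    have h1 := Subgroup.card_eq_card_quotient_mul_card_subgroup (P : Subgroup G)
    rw [hPcard, hG, hm'] at h1
    have h2 : k * m' * p = Nat.card (G ⧸ (P : Subgroup G)) * p := by rw [← h1]; ring
    exact (Nat.eq_of_mul_eq_mul_right hpp.pos h2).symm
  obtain ⟨N', hN'n, hN'c, hN'card⟩ := ih m' hm'lt k (G ⧸ (P : Subgroup G)) hcardQ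
    (hsq.squarefree_of_dvd hdvd)
    (fun q hq => hkm q (Nat.primeFactors_mono hdvd hm0 hq))
    (fun q hq r hr => hact q (Nat.primeFactors_mono hdvd hm0 hq) r
      (Nat.primeFactors_mono (Nat.mul_dvd_mul_left k hdvd) (Nat.mul_ne_zero hk0 hm0) hr))
    (fun q hq d hd => hsyl q (Nat.primeFactors_mono hdvd hm0 hq) d
      (hd.trans (Nat.mul_dvd_mul_left k hdvd)))
  set f := QuotientGroup.mk' (P : Subgroup G) with hf
  set N : Subgroup G := N'.comap f with hN
  have hPN : (P : Subgroup G) ≤ N := by
    intro x hx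
    rw [hN, Subgroup.mem_comap]
    have : f x = 1 := (QuotientGroup.eq_one_iff x).2 hx
    rw [this]
    exact N'.one_mem
  have hNcard : Nat.card N = m := by
    have h1 : N.index = N'.index := Subgroup.index_comap_of_surjective N'
      (QuotientGroup.mk'_surjective _)
    have h2 := N.card_mul_index
    have h3 := N'.card_mul_index
    rw [hcardQ, hN'card] at h3
    have h4 : N'.index = k := by
      have : m' * N'.index = m' * k := by rw [h3]; ring
      exact Nat.eq_of_mul_eq_mul_left (Nat.pos_of_ne_zero hm'0) this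
    rw [h1, h4, hG] at h2
    have : Nat.card N * k = m * k := by rw [h2]; ring
    exact Nat.eq_of_mul_eq_mul_right (Nat.pos_of_ne_zero hk0) this
  have hNn : N.Normal := hN'n.comap f
  -- the group N
  set P' : Subgroup N := (P : Subgroup G).subgroupOf N with hP'
  have : P'.Normal := inferInstance
  have hP'card : Nat.card P' = p := by
    rw [hP']
    exact (Nat.card_congr (Subgroup.subgroupOfEquivOfLe hPN).toEquiv).trans hPcard
  have hcen : P' ≤ center N := by
    refine prime_central hpp P' hP'card ?_
    intro q hq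
    rw [hNcard] at hq
    refine hact q hq p (Nat.mem_primeFactors.2 ⟨hpp, ?_, Nat.mul_ne_zero hk0 hm0⟩)
    rw [hm']
    exact Dvd.dvd.mul_left (Nat.dvd_mul_right p m') k
  -- the map N → N'
  let g : N →* N' := (f.comp N.subtype).codRestrict N' (fun x => x.2)
  have hker : g.ker ≤ center N := by
    intro x hx
    apply hcen
    rw [hP', Subgroup.mem_subgroupOf]
    have h1 : (g x : G ⧸ (P : Subgroup G)) = 1 := by
      rw [MonoidHom.mem_ker] at hx
      rw [hx]; rfl
    exact (QuotientGroup.eq_one_iff (x : G)).1 h1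
  have hcomm : ∀ a b : N, a * b = b * a := by
    intro a b
    exact (g.isMulCommutative_of_isCyclic_of_ker_le_center hker).is_comm.comm a b
  refine ⟨N, hNn, cyclic_of_squarefree hcomm (by rw [hNcard]; exact hsq), hNcard⟩

end Pool.Agent.Lib.MP_688fd0_co.SQ2.H41
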