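import Pool.Agent.Lib.MP_688fd0_co.SQ2.H41.Defs
import Pool.Agent.Lib.MP_688fd0_co.SQ2.H41.StrA

/-!
Groups whose order has a cut: the noncentral part of the normal cyclic subgroup.
-/

set_option autoImplicit false

namespace Pool.Agent.Lib.MP_688fd0_co.SQ2.H41

open Subgroup
open scoped commutatorElement

variable {G : Type*} [Group G] [Finite G]

/-- The elements `x` of a cyclic normal subgroup with `x ^ p = 1` are central if one element of order `p` is. -/
theorem pow_central (N : Subgroup G) (hN : IsCyclic N) {p : ℕ} {y : G} (hy : y ∈ N)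
    (hyp : orderOf y = p) (hyc : y ∈ center G) : ∀ x ∈ N, x ^ p = 1 → x ∈ center G := by
  intro x hx hxp
  let _ : CommGroup N := { (inferInstance : Group N) with
    mul_comm := fun a b => by
      obtain ⟨g, hg⟩ := hN.exists_generator
      obtain ⟨i, rfl⟩ := Subgroup.mem_zpowers_iff.1 (hg a)
      obtain ⟨j, rfl⟩ := Subgroup.mem_zpowers_iff.1 (hg b)
      rw [← zpow_add, ← zpow_add, add_comm] }
  have hk : Nat.card (powMonoidHom p : N →* N).ker = p := by
    rw [IsCyclic.card_powMonoidHom_ker]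
    refine Nat.gcd_eq_right ?_
    have h1 : orderOf (⟨y, hy⟩ : N) = p := by rw [← hyp]; exact Subgroup.orderOf_mk y hy
    rw [← h1]; exact orderOf_dvd_natCard _
  have hle : zpowers (⟨y, hy⟩ : N) ≤ (powMonoidHom p : N →* N).ker := by
    rw [Subgroup.zpowers_le, MonoidHom.mem_ker, powMonoidHom_apply]
    apply Subtype.ext
    simp only [Subgroup.coe_pow, Subgroup.coe_one]
    rw [← hyp]; exact pow_orderOf_eq_one y
  have heq : zpowers (⟨y, hy⟩ : N) = (powMonoidHom p : N →* N).ker := by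
    refine Subgroup.eq_of_le_of_card_ge hle ?_
    rw [hk, Nat.card_zpowers, Subgroup.orderOf_mk y hy, hyp]
  have hxm : (⟨x, hx⟩ : N) ∈ (powMonoidHom p : N →* N).ker := by
    rw [MonoidHom.mem_ker, powMonoidHom_apply]
    apply Subtype.ext
    simpa using hxp
  rw [← heq] at hxm
  obtain ⟨i, hi⟩ := Subgroup.mem_zpowers_iff.1 hxm
  have h2 : x = y ^ i := by
    have := congrArg (fun z : N => (z : G)) hi
    simpa using this.symm
  rw [h2]
  exact (center G).zpow_mem hyc i

/-- If the elements of order `p` are central, the commutator `[N, G]` has exponent dividing `|N| / p`. -/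
theorem pow_eq_one (N : Subgroup G) [N.Normal] (hN : IsCyclic N) {p m' : ℕ} (hm : Nat.card N = p * m')
    (hc : ∀ x ∈ N, x ^ p = 1 → x ∈ center G) : ∀ c ∈ ⁅N, (⊤ : Subgroup G)⁆, c ^ m' = 1 := by
  have hcomm : ∀ a ∈ N, ∀ b ∈ N, a * b = b * a := by
    intro a ha b hb
    obtain ⟨g, hg⟩ := hN.exists_generator
    obtain ⟨i, hi⟩ := Subgroup.mem_zpowers_iff.1 (hg ⟨a, ha⟩)
    obtain ⟨j, hj⟩ := Subgroup.mem_zpowers_iff.1 (hg ⟨b, hb⟩)
    have hi' : a = (g : G) ^ i := by
      have := congrArg (fun z : N => (z : G)) hi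
      simpa using this.symm
    have hj' : b = (g : G) ^ j := by
      have := congrArg (fun z : N => (z : G)) hj
      simpa using this.symm
    rw [hi', hj', ← zpow_add, ← zpow_add, add_comm]
  let H : Subgroup G :=
    { carrier := {x | x ∈ N ∧ x ^ m' = 1}
      one_mem' := ⟨N.one_mem, one_pow _⟩
      mul_mem' := by
        rintro a b ⟨ha, ha'⟩ ⟨hb, hb'⟩
        refine ⟨N.mul_mem ha hb, ?_⟩
        have : Commute a b := hcomm a ha b hb
        rw [this.mul_pow, ha', hb', one_mul]
      inv_mem' := by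
        rintro a ⟨ha, ha'⟩
        exact ⟨N.inv_mem ha, by rw [inv_pow, ha', inv_one]⟩ }
  have hle : ⁅N, (⊤ : Subgroup G)⁆ ≤ H := by
    rw [Subgroup.commutator_le]
    intro n hn g _
    have hg : g * n⁻¹ * g⁻¹ ∈ N := (inferInstance : N.Normal).conj_mem _ (N.inv_mem hn) g
    have he : ⁅n, g⁆ = n * (g * n⁻¹ * g⁻¹) := by rw [commutatorElement_def]; group
    rw [he]
    refine ⟨N.mul_mem hn hg, ?_⟩
    have h1 : Commute n (g * n⁻¹ * g⁻¹) := hcomm _ hn _ hg
    rw [h1.mul_pow, conj_pow, inv_pow]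
    have h2 : n ^ m' ∈ center G := by
      refine hc _ (N.pow_mem hn m') ?_
      rw [← pow_mul, mul_comm m' p, ← hm]
      have := congrArg Subtype.val (pow_card_eq_one' (G := N) (x := ⟨n, hn⟩))
      rwa [Subgroup.coe_pow, Subgroup.coe_one] at this
    have h3 := Subgroup.mem_center_iff.1 ((center G).inv_mem h2) g
    rw [h3]
    group
  intro c hcm
  exact (hle hcm).2

theorem str {k m : ℕ} (hG : Nat.card G = k * m) (hD : CutD (k * m) k m) {P : ℕ} (hP : P ∈ m.primeFactors)
    (hPq : ∀ q ∈ (k * m).primeFactors, ¬ q ∣ P - 1) :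
    ∃ C : Subgroup G, ∃ _ : C.Normal, IsCyclic C ∧ Squarefree (Nat.card C) ∧ (Nat.card C).Coprime C.index ∧
      C ⊓ center G = ⊥ ∧ (∀ p ∈ (Nat.card C).primeFactors, 4 * k < p ∧ ¬ P ∣ p - 1) ∧
      ∃ Z : Subgroup (G ⧸ C), Z ≤ center (G ⧸ C) ∧ IsCyclic Z ∧ Squarefree (Nat.card Z) ∧
        (Nat.card Z).Coprime k ∧ Z.index = k ∧ P ∣ Nat.card Z := by
  have hm0 : m ≠ 0 := hD.sq.ne_zero
  have hG0 : Nat.card G ≠ 0 := Nat.card_pos.ne'
  have hk0 : k ≠ 0 := by rintro rfl; simp at hG; exact hG0 hG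
  have hn0 : k * m ≠ 0 := Nat.mul_ne_zero hk0 hm0
  obtain ⟨N, hNn, hNc, hNcard⟩ := exists_normal_cyclic m k G hG hD.sq
    (fun p hp q hq => by
      have h1 := hD.big p hp
      have h2 := Nat.le_of_dvd (Nat.pos_of_ne_zero hk0) (Nat.dvd_of_mem_primeFactors hq)
      omega) hD.act hD.syl
  set C : Subgroup G := ⁅N, (⊤ : Subgroup G)⁆ with hC
  have hCn : C.Normal := inferInstance
  have hCN : C ≤ N := Subgroup.commutator_le_left N ⊤
  have hNindex : N.index = k := by
    have h2 := N.card_mul_index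
    rw [hNcard, hG] at h2
    have : m * N.index = m * k := by rw [h2]; ring
    exact Nat.eq_of_mul_eq_mul_left (Nat.pos_of_ne_zero hm0) this
  have hCd : Nat.card C ∣ m := by rw [← hNcard]; exact Subgroup.card_dvd_of_le hCN
  obtain ⟨m', hm'⟩ := hCd
  have hCsq : Squarefree (Nat.card C) := hD.sq.squarefree_of_dvd ⟨m', hm'⟩
  have hcopm : (Nat.card C).Coprime m' := by
    have := hD.sq
    rw [hm'] at this
    exact Nat.coprime_of_squarefree_mul this
  have hCindex : C.index = k * m' := by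
    have h1 := C.card_mul_index
    rw [hG, hm'] at h1
    have h2 : Nat.card C * C.index = Nat.card C * (k * m') := by rw [h1]; ring
    exact Nat.eq_of_mul_eq_mul_left Nat.card_pos h2
  have hcopk : (Nat.card C).Coprime k := (Nat.Coprime.coprime_dvd_right ⟨m', hm'⟩ hD.cop).symm
  -- the key fact
  have key : ∀ p ∈ m.primeFactors, (∃ y ∈ N, orderOf y = p ∧ y ∈ center G) → ¬ p ∣ Nat.card C := by
    rintro p hp ⟨y, hy, hyp, hyc⟩ hpC
    have hpp := Nat.prime_of_mem_primeFactors hp
    have : Fact p.Prime := ⟨hpp⟩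
    obtain ⟨r, hr⟩ := Nat.dvd_of_mem_primeFactors hp
    have h1 := pow_eq_one N hNc (p := p) (m' := r) (by rw [hNcard, hr])
      (pow_central N hNc hy hyp hyc)
    obtain ⟨c, hc⟩ := exists_prime_orderOf_dvd_card' (G := C) p hpC
    have h2 := h1 (c : G) c.2
    have h3 : p ∣ r := by
      rw [← hc, ← Subgroup.orderOf_coe]
      exact orderOf_dvd_of_pow_eq_one h2
    have h4 : p * p ∣ m := by rw [hr]; exact Nat.mul_dvd_mul_left p h3
    exact hpp.one_lt.ne' (Nat.isUnit_iff.1 (hD.sq p h4))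
  have hCcen : C ⊓ center G = ⊥ := by
    rw [eq_bot_iff]
    intro x hx
    rw [Subgroup.mem_bot]
    by_contra hne
    have hx1 : orderOf x ≠ 1 := fun h => hne (orderOf_eq_one_iff.1 h)
    obtain ⟨p, hpp, hpd⟩ := Nat.exists_prime_and_dvd hx1
    obtain ⟨s, hs⟩ := hpd
    have hox : orderOf x ∣ Nat.card C := by
      have := orderOf_dvd_natCard (⟨x, hx.1⟩ : C)
      rwa [Subgroup.orderOf_mk] at this
    have hpC : p ∣ Nat.card C := (Dvd.intro s hs.symm).trans hox
    have hs0 : s ≠ 0 := by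
      rintro rfl
      have := orderOf_pos x
      omega
    have hpm : p ∈ m.primeFactors := Nat.mem_primeFactors.2 ⟨hpp, hpC.trans ⟨m', hm'⟩, hm0⟩
    refine key p hpm ⟨x ^ s, N.pow_mem (hCN hx.1) s, ?_, (center G).pow_mem hx.2 s⟩ hpC
    rw [orderOf_pow_of_dvd hs0 ⟨p, by rw [hs, mul_comm]⟩, hs]
    exact Nat.mul_div_cancel _ (Nat.pos_of_ne_zero hs0)
  -- the prime P
  have hPp := Nat.prime_of_mem_primeFactors hP
  have hPfact : Fact P.Prime := ⟨hPp⟩
  have hPC : ¬ P ∣ Nat.card C := by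
    have hPN : P ∣ Nat.card N := by rw [hNcard]; exact Nat.dvd_of_mem_primeFactors hP
    obtain ⟨y, hy⟩ := exists_prime_orderOf_dvd_card' (G := N) P hPN
    have hyo : orderOf (y : G) = P := by rw [Subgroup.orderOf_coe, hy]
    refine key P hP ⟨(y : G), y.2, hyo, ?_⟩
    -- the subgroup of order P is normal
    have hnorm : (zpowers (y : G)).Normal := by
      let _ : CommGroup N := { (inferInstance : Group N) with
        mul_comm := fun a b => by
          obtain ⟨g, hg⟩ := hNc.exists_generator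
          obtain ⟨i, rfl⟩ := Subgroup.mem_zpowers_iff.1 (hg a)
          obtain ⟨j, rfl⟩ := Subgroup.mem_zpowers_iff.1 (hg b)
          rw [← zpow_add, ← zpow_add, add_comm] }
      have hk : Nat.card (powMonoidHom P : N →* N).ker = P := by
        rw [IsCyclic.card_powMonoidHom_ker]
        exact Nat.gcd_eq_right hPN
      have hle : zpowers y ≤ (powMonoidHom P : N →* N).ker := by
        rw [Subgroup.zpowers_le, MonoidHom.mem_ker, powMonoidHom_apply]
        rw [← hy]; exact pow_orderOf_eq_one y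
      have heq : zpowers y = (powMonoidHom P : N →* N).ker := by
        refine Subgroup.eq_of_le_of_card_ge hle ?_
        rw [hk, Nat.card_zpowers, hy]
      refine ⟨fun x hx g => ?_⟩
      have hxN : x ∈ N := by
        obtain ⟨i, rfl⟩ := Subgroup.mem_zpowers_iff.1 hx
        exact N.zpow_mem y.2 i
      have hxP : x ^ P = 1 := by
        obtain ⟨i, rfl⟩ := Subgroup.mem_zpowers_iff.1 hx
        rw [← zpow_natCast, ← zpow_mul, mul_comm, zpow_mul, zpow_natCast, ← hyo,
          pow_orderOf_eq_one, one_zpow]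
      have hcN : g * x * g⁻¹ ∈ N := hNn.conj_mem x hxN g
      have hmem : (⟨g * x * g⁻¹, hcN⟩ : N) ∈ (powMonoidHom P : N →* N).ker := by
        rw [MonoidHom.mem_ker, powMonoidHom_apply]
        apply Subtype.ext
        simp only [Subgroup.coe_pow, Subgroup.coe_one]
        rw [conj_pow, hxP]; group
      rw [← heq] at hmem
      obtain ⟨i, hi⟩ := Subgroup.mem_zpowers_iff.1 hmem
      rw [Subgroup.mem_zpowers_iff]
      refine ⟨i, ?_⟩
      have := congrArg (fun z : N => (z : G)) hi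
      simpa using this
    have hle := prime_central (G := G) hPp (zpowers (y : G)) (by rw [Nat.card_zpowers, hyo])
      (by rw [hG]; exact hPq)
    exact hle (Subgroup.mem_zpowers (y : G))
  -- the quotient
  set f := QuotientGroup.mk' C with hf
  have hfs : Function.Surjective f := QuotientGroup.mk'_surjective C
  set Z : Subgroup (G ⧸ C) := N.map f with hZ
  have hZindex : Z.index = k := by
    have h1 : (Z.comap f).index = Z.index := Subgroup.index_comap_of_surjective Z hfs
    have h2 : Z.comap f = N := by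
      rw [hZ, Subgroup.comap_map_eq, hf, QuotientGroup.ker_mk', sup_eq_left]
      exact hCN
    rw [← h1, h2, hNindex]
  have hZcard : Nat.card Z = m' := by
    have h1 := Z.card_mul_index
    have h2 : Nat.card (G ⧸ C) = k * m' := hCindex
    rw [hZindex, h2] at h1
    have : Nat.card Z * k = m' * k := by rw [h1]; ring
    exact Nat.eq_of_mul_eq_mul_right (Nat.pos_of_ne_zero hk0) this
  have hm'd : m' ∣ m := ⟨Nat.card C, by rw [hm', mul_comm]⟩
  refine ⟨C, hCn, Subgroup.isCyclic_of_le hCN, hCsq, ?_, hCcen, ?_, Z, ?_, ?_, ?_, ?_, hZindex, ?_⟩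
  · rw [hCindex]; exact Nat.Coprime.mul_right hcopk hcopm
  · intro p hp
    have hpm : p ∈ m.primeFactors := Nat.primeFactors_mono ⟨m', hm'⟩ hm0 hp
    refine ⟨hD.big p hpm, hD.act P hP p ?_⟩
    exact Nat.primeFactors_mono (Nat.dvd_mul_left m k) hn0 hpm
  · rintro _ ⟨n, hn, rfl⟩
    rw [Subgroup.mem_center_iff]
    intro q
    obtain ⟨g, rfl⟩ := hfs q
    rw [← map_mul, ← map_mul]
    rw [hf, QuotientGroup.mk'_apply, QuotientGroup.mk'_apply, QuotientGroup.eq]
    have h1 : ⁅n⁻¹, g⁻¹⁆ ∈ C := Subgroup.commutator_mem_commutator (N.inv_mem hn) (Subgroup.mem_top _)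
    have h2 : (g * n)⁻¹ * (n * g) = ⁅n⁻¹, g⁻¹⁆ := by rw [commutatorElement_def]; group
    rw [h2]; exact h1
  · exact isCyclic_of_surjective _ (f.subgroupMap_surjective N)
  · rw [hZcard]; exact hD.sq.squarefree_of_dvd hm'd
  · rw [hZcard]; exact (Nat.Coprime.coprime_dvd_right hm'd hD.cop).symm
  · rw [hZcard]
    have h1 : P ∣ Nat.card C * m' := by rw [← hm']; exact Nat.dvd_of_mem_primeFactors hP
    exact (hPp.dvd_mul.1 h1).resolve_left hPC

end Pool.Agent.Lib.MP_688fd0_co.SQ2.H41
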